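import Pool.Agent.J4H26.VP.Jk

set_option autoImplicit false

/-! Bounds for the moments at distance `a / log T` from the line. -/

namespace Pool.Agent.J4H26.VP

open MeasureTheory Filter Topology Complex Pool.Agent.H306R2 Pool.Agent.W184 Pool.Agent.J4H26.EQ

open Pool.Agent.H401R2 in
/-- the functional equation as an inequality in the other direction, `τ ≥ 100` -/
lemma fe_rev {Δ τ : ℝ} (h0 : 0 ≤ Δ) (h1 : Δ ≤ 1 / 8) (ht : 100 ≤ τ) :
    zn (1 / 2 + Δ) τ ≤ Real.exp (-(Δ * Real.log (τ / (2 * Real.pi)))) * (1 + 16 / τ) * zn (1 / 2 - Δ) τ := by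
  unfold zn
  have ht0 : 0 < τ := by linarith
  set s : ℂ := ((1 / 2 - Δ : ℝ) : ℂ) + τ * I with hs
  have hre : s.re = 1 / 2 - Δ := by simp [hs]
  have h2 := chi_zeta (s := s) (by rw [hre]; linarith) (by rw [hre]; linarith)
  have e1 : 1 - s = (starRingEnd ℂ) (((1 / 2 + Δ : ℝ) : ℂ) + τ * I) := by
    rw [map_add, map_mul, Complex.conj_ofReal, Complex.conj_ofReal, Complex.conj_I, hs]
    push_cast; ring
  have h3 : ‖chi (1 - s)‖ = ‖chi (((1 / 2 + Δ : ℝ) : ℂ) + τ * I)‖ := by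
    rw [e1]
    set w : ℂ := ((1 / 2 + Δ : ℝ) : ℂ) + τ * I with hw
    unfold chi
    rw [norm_mul, norm_mul, norm_mul, norm_mul]
    have a1 : ‖(starRingEnd ℂ) w * ((starRingEnd ℂ) w - 1) / 2‖ = ‖w * (w - 1) / 2‖ := by
      rw [norm_div, norm_div, norm_mul, norm_mul, RCLike.norm_conj]
      congr 2
      rw [← RCLike.norm_conj (w - 1), map_sub, map_one]
    have a2 : ‖((Real.pi : ℝ) : ℂ) ^ (-(starRingEnd ℂ) w / 2)‖ = ‖((Real.pi : ℝ) : ℂ) ^ (-w / 2)‖ := by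
      rw [Complex.norm_cpow_eq_rpow_re_of_pos Real.pi_pos, Complex.norm_cpow_eq_rpow_re_of_pos Real.pi_pos]
      congr 1
      simp
    have a3 : ‖Gamma ((starRingEnd ℂ) w / 2)‖ = ‖Gamma (w / 2)‖ := by
      have : (starRingEnd ℂ) w / 2 = (starRingEnd ℂ) (w / 2) := by
        rw [map_div₀, map_ofNat]
      rw [this, Complex.Gamma_conj, RCLike.norm_conj]
    rw [a1, a2, a3]
  have h4 : ‖riemannZeta (1 - s)‖ = ‖riemannZeta (((1 / 2 + Δ : ℝ) : ℂ) + τ * I)‖ := by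
    rw [e1, riemannZeta_conj, RCLike.norm_conj]
  have h5 := congrArg norm h2
  rw [norm_mul, norm_mul, h3, h4] at h5
  obtain ⟨-, c1⟩ := chi_norm (σ := 1 / 2 - Δ) (by linarith) (by linarith) ht
  obtain ⟨c2, -⟩ := chi_norm (σ := 1 / 2 + Δ) (by linarith) (by linarith) ht
  set X := ‖riemannZeta (((1 / 2 + Δ : ℝ) : ℂ) + τ * I)‖ with hX
  set Y := ‖riemannZeta s‖ with hY
  set lo := Real.log (τ / (2 * Real.pi)) with hlo
  set Q := τ ^ 2 / √2 * Real.exp (-(Real.pi * τ / 4) - (1 - (1 / 2 - Δ)) / 2 * lo) with hQ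
  have hQ0 : 0 < Q := by positivity
  have e2 : τ ^ 2 / √2 * Real.exp (-(Real.pi * τ / 4) - (1 - (1 / 2 + Δ)) / 2 * lo) =
      Q * Real.exp (Δ * lo) := by
    rw [hQ, mul_assoc, ← Real.exp_add]
    congr 2; ring
  rw [e2] at c2
  have hYn : 0 ≤ Y := norm_nonneg _
  have hXn : 0 ≤ X := norm_nonneg _
  have h6 : Q * Real.exp (Δ * lo) * (1 - 4 / τ) * X ≤ Q * (1 + 4 / τ) * Y := by
    calc Q * Real.exp (Δ * lo) * (1 - 4 / τ) * X ≤ ‖chi (((1 / 2 + Δ : ℝ) : ℂ) + τ * I)‖ * X :=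
          mul_le_mul_of_nonneg_right c2 hXn
      _ = ‖chi s‖ * Y := h5.symm
      _ ≤ _ := mul_le_mul_of_nonneg_right c1 hYn
  have h7 : Real.exp (Δ * lo) * ((1 - 4 / τ) * X) ≤ (1 + 4 / τ) * Y := by
    have : Q * (Real.exp (Δ * lo) * ((1 - 4 / τ) * X)) ≤ Q * ((1 + 4 / τ) * Y) := by
      calc _ = Q * Real.exp (Δ * lo) * (1 - 4 / τ) * X := by ring
        _ ≤ _ := h6
        _ = _ := by ring
    exact le_of_mul_le_mul_left this hQ0
  have h8 : (1 - 4 / τ) * X ≤ Real.exp (-(Δ * lo)) * ((1 + 4 / τ) * Y) := by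
    have h9 := mul_le_mul_of_nonneg_left h7 (Real.exp_pos (-(Δ * lo))).le
    rwa [← mul_assoc, ← Real.exp_add, neg_add_cancel, Real.exp_zero, one_mul] at h9
  have h9 : 4 / τ ≤ 1 / 25 := by
    rw [div_le_iff₀ ht0]; linarith
  have h10 : 0 < 4 / τ := by positivity
  have h11 : (1 + 4 / τ) ≤ (1 + 16 / τ) * (1 - 4 / τ) := by
    have : 16 / τ = 4 * (4 / τ) := by ring
    rw [this]
    nlinarith
  have h12 : (1 - 4 / τ) * X ≤ (1 - 4 / τ) * (Real.exp (-(Δ * lo)) * (1 + 16 / τ) * Y) := by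
    refine h8.trans ?_
    calc Real.exp (-(Δ * lo)) * ((1 + 4 / τ) * Y) ≤ Real.exp (-(Δ * lo)) * (((1 + 16 / τ) * (1 - 4 / τ)) * Y) := by
          gcongr
      _ = _ := by ring
  exact le_of_mul_le_mul_left h12 (by linarith)

/-- `|ζ(1/2+Δ+iτ)|^{2k} ≤ 2^k |ζ(1/2-Δ+iτ)|^{2k} + C` -/
lemma rev_k {Δ τ : ℝ} (k : ℕ) (h0 : 0 ≤ Δ) (h1 : Δ ≤ 1 / 8) (hτ : 0 ≤ τ) :
    zn (1 / 2 + Δ) τ ^ (2 * k) ≤ 2 ^ k * zn (1 / 2 - Δ) τ ^ (2 * k) + 1212 ^ (2 * k) := by
  have hz := zn_nonneg (1 / 2 - Δ) τ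
  rcases le_or_gt 100 τ with h | h
  · have h2 := fe_rev h0 h1 h
    have h3 : Real.exp (-(Δ * Real.log (τ / (2 * Real.pi)))) ≤ 1 := by
      rw [Real.exp_le_one_iff]
      have : 0 ≤ Real.log (τ / (2 * Real.pi)) := by
        refine Real.log_nonneg ?_
        rw [le_div_iff₀ (by positivity)]
        linarith [Real.pi_lt_four]
      have := mul_nonneg h0 this
      linarith
    have h4 : 1 + 16 / τ ≤ 1.16 := by
      have : 16 / τ ≤ 0.16 := by rw [div_le_iff₀ (by linarith)]; linarith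
      linarith
    have h5 : zn (1 / 2 + Δ) τ ≤ 1.16 * zn (1 / 2 - Δ) τ := by
      have h6 : 0 ≤ 1 + 16 / τ := by positivity
      calc zn (1 / 2 + Δ) τ ≤ Real.exp (-(Δ * Real.log (τ / (2 * Real.pi)))) * (1 + 16 / τ) * zn (1 / 2 - Δ) τ := h2
        _ ≤ 1 * 1.16 * zn (1 / 2 - Δ) τ := by gcongr
        _ = _ := by ring
    have h6 := pow_le_pow_left₀ (zn_nonneg _ _) h5 (2 * k)
    have h7 : (1.16 : ℝ) ^ (2 * k) ≤ 2 ^ k := by
      rw [pow_mul]
      exact pow_le_pow_left₀ (by norm_num) (by norm_num) k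
    rw [mul_pow] at h6
    have h8 : 0 ≤ zn (1 / 2 - Δ) τ ^ (2 * k) := pow_nonneg hz _
    have h9 : (0:ℝ) < 1212 ^ (2 * k) := by positivity
    have h10 := mul_le_mul_of_nonneg_right h7 h8
    linarith
  · have h5 := zn_le' (σ := 1 / 2 + Δ) (t := τ) (by linarith) (by linarith)
    rw [abs_of_nonneg hτ] at h5
    have h6 : zn (1 / 2 + Δ) τ ≤ 1212 := by linarith
    have h7 := pow_le_pow_left₀ (zn_nonneg _ _) h6 (2 * k)
    have h8 : 0 ≤ 2 ^ k * zn (1 / 2 - Δ) τ ^ (2 * k) := by positivity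
    linarith

lemma Nk_MZ (k : ℕ) (δ : ℝ) {T : ℝ} (hT : 0 < T) : Nk k (1 / 2 + δ) T = T * MZ k δ T := by
  unfold Nk MZ; field_simp

/-- `a / log T` is small -/
lemma small (a : ℝ) {e : ℝ} (he : 0 < e) : ∀ᶠ T : ℝ in atTop, |a / Real.log T| < e := by
  have h : Tendsto (fun T : ℝ => a / Real.log T) atTop (𝓝 0) :=
    tendsto_const_nhds.div_atTop Real.tendsto_log_atTop
  have := h.eventually (Metric.ball_mem_nhds 0 he)
  filter_upwards [this] with T hT
  rwa [Real.dist_eq, sub_zero] at hT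

/-- a bound at one distance `a / log T` gives the bound on the line -/
theorem up_of_pos {k : ℕ} (hk : 1 ≤ k) {a : ℝ} (ha : 0 < a)
    (H : ∃ K : ℝ, ∀ᶠ T in atTop, MZ k (a / Real.log T) T ≤ K * Real.log T ^ (k ^ 2)) :
    ∃ K : ℝ, ∀ᶠ T in atTop, MZ k 0 T ≤ K * Real.log T ^ (k ^ 2) := by
  obtain ⟨K, hK⟩ := H
  obtain ⟨R, hR, hrefl⟩ := refl_k hk
  refine ⟨R * Real.exp (k * a) * (2 * (|K| * 2 ^ (k ^ 2)) + 1) + R / a, ?_⟩
  filter_upwards [two_T.eventually hK, eventually_ge_atTop (2:ℝ),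
    Real.tendsto_log_atTop.eventually_ge_atTop 1,
    two_T.eventually (small a (show (0:ℝ) < 1 / 8 by norm_num))] with T h1 h2 hLT h5
  have hT0 : 0 < T := by linarith
  set L := Real.log T with hL
  have hL0 : 0 < L := by linarith
  have hL2 : 0 < Real.log (2 * T) := Real.log_pos (by linarith)
  set Δ := a / Real.log (2 * T) with hΔ
  have hΔ0 : 0 < Δ := by positivity
  have hΔ1 : Δ ≤ 1 / 8 := by
    have := abs_lt.mp h5
    linarith
  have h6 := hrefl T Δ (by linarith) hΔ0 hΔ1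
  have e1 : ∫ t in (0:ℝ)..(2 * T), zn (1 / 2 + Δ) t ^ (2 * k) = 2 * T * MZ k Δ (2 * T) := by
    unfold MZ; field_simp
  have e2 : ∫ t in (0:ℝ)..T, zn (1 / 2) t ^ (2 * k) = T * MZ k 0 T := by
    unfold MZ; rw [add_zero]; field_simp
  have e3 : (2 * T) ^ ((k:ℝ) * Δ) = Real.exp (k * a) := by
    rw [Real.rpow_def_of_pos (by positivity), hΔ]
    congr 1
    field_simp
  rw [e1, e2, e3] at h6
  have hlg := log_two_T h2
  rw [← hL] at hlg
  have b1 : Real.log (2 * T) ^ (k ^ 2) ≤ 2 ^ (k ^ 2) * L ^ (k ^ 2) := by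
    rw [← mul_pow]
    exact pow_le_pow_left₀ hL2.le hlg _
  have b2 : MZ k Δ (2 * T) ≤ |K| * (2 ^ (k ^ 2) * L ^ (k ^ 2)) := by
    refine h1.trans ?_
    calc K * Real.log (2 * T) ^ (k ^ 2) ≤ |K| * Real.log (2 * T) ^ (k ^ 2) :=
          mul_le_mul_of_nonneg_right (le_abs_self K) (by positivity)
      _ ≤ _ := mul_le_mul_of_nonneg_left b1 (abs_nonneg K)
  have hLk : 1 ≤ L ^ (k ^ 2) := one_le_pow₀ hLT
  have g2 : Real.log (2 * T) ≤ T := by
    have g3 : Real.log (2 * T) = Real.log 2 + L := Real.log_mul (by norm_num) (by linarith)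
    have g4 : L ≤ T - 1 := Real.log_le_sub_one_of_pos hT0
    have g5 := Real.log_two_lt_d9
    linarith
  have b3 : R / Δ ≤ R / a * (T * L ^ (k ^ 2)) := by
    calc R / Δ = R / a * Real.log (2 * T) := by rw [hΔ]; field_simp
      _ ≤ R / a * T := by gcongr
      _ ≤ R / a * (T * L ^ (k ^ 2)) := by
          refine mul_le_mul_of_nonneg_left (le_mul_of_one_le_right hT0.le hLk) (by positivity)
  have b4 : T * MZ k 0 T ≤ T * ((R * Real.exp (k * a) * (2 * (|K| * 2 ^ (k ^ 2)) + 1) + R / a) * L ^ (k ^ 2)) := by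
    refine h6.trans ?_
    have hTL : T ≤ T * L ^ (k ^ 2) := le_mul_of_one_le_right hT0.le hLk
    calc R * Real.exp (k * a) * (2 * T * MZ k Δ (2 * T) + T) + R / Δ ≤
        R * Real.exp (k * a) * (2 * T * (|K| * (2 ^ (k ^ 2) * L ^ (k ^ 2))) + T * L ^ (k ^ 2)) +
        R / a * (T * L ^ (k ^ 2)) := by gcongr
      _ = _ := by ring
  exact le_of_mul_le_mul_left b4 hT0

theorem up_of_ne {k : ℕ} (hk : 1 ≤ k) {a : ℝ} (ha : a ≠ 0)
    (H : ∃ K : ℝ, ∀ᶠ T in atTop, MZ k (a / Real.log T) T ≤ K * Real.log T ^ (k ^ 2)) :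
    ∃ K : ℝ, ∀ᶠ T in atTop, MZ k 0 T ≤ K * Real.log T ^ (k ^ 2) := by
  rcases lt_or_gt_of_ne ha with h | h
  · -- reflect
    refine up_of_pos hk (neg_pos.mpr h) ?_
    obtain ⟨K, hK⟩ := H
    refine ⟨2 ^ k * |K| + 1212 ^ (2 * k), ?_⟩
    filter_upwards [hK, small a (show (0:ℝ) < 1 / 8 by norm_num), eventually_gt_atTop (0:ℝ),
      Real.tendsto_log_atTop.eventually_ge_atTop 1] with T h1 h2 hT hL
    set L := Real.log T with hLdef
    have hL0 : 0 < L := by linarith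
    set Δ := -a / L with hΔ
    have e : a / L = -Δ := by rw [hΔ]; ring
    rw [e] at h1 h2
    have hΔ0 : 0 ≤ Δ := div_nonneg (by linarith) hL0.le
    rw [abs_neg, abs_of_nonneg hΔ0] at h2
    have hc1 := zp_cont (σ := 1 / 2 + Δ) k (by linarith)
    have hc2 := zp_cont (σ := 1 / 2 - Δ) k (by linarith)
    have h3 : Nk k (1 / 2 + Δ) T ≤ 2 ^ k * Nk k (1 / 2 + -Δ) T + 1212 ^ (2 * k) * T := by
      unfold Nk
      rw [← sub_eq_add_neg]
      calc ∫ t in (0:ℝ)..T, zn (1 / 2 + Δ) t ^ (2 * k) ≤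
            ∫ t in (0:ℝ)..T, (2 ^ k * zn (1 / 2 - Δ) t ^ (2 * k) + 1212 ^ (2 * k)) :=
            intervalIntegral.integral_mono_on hT.le (hc1.intervalIntegrable _ _)
              (Continuous.intervalIntegrable (by fun_prop) _ _) fun t ht => rev_k k hΔ0 h2.le ht.1
        _ = _ := by
            have hi1 : IntervalIntegrable (fun t => (2:ℝ) ^ k * zn (1 / 2 - Δ) t ^ (2 * k)) volume 0 T :=
              Continuous.intervalIntegrable (by fun_prop) _ _
            rw [intervalIntegral.integral_add hi1 intervalIntegrable_const,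
              intervalIntegral.integral_const_mul, intervalIntegral.integral_const, smul_eq_mul, sub_zero]
            ring
    rw [Nk_MZ k _ hT, Nk_MZ k _ hT] at h3
    have hLk : 1 ≤ L ^ (k ^ 2) := one_le_pow₀ hL
    have h4 : MZ k (-Δ) T ≤ |K| * L ^ (k ^ 2) :=
      h1.trans (mul_le_mul_of_nonneg_right (le_abs_self K) (by positivity))
    have h5 : T * MZ k Δ T ≤ T * ((2 ^ k * |K| + 1212 ^ (2 * k)) * L ^ (k ^ 2)) := by
      refine h3.trans ?_
      have h6 : (1212:ℝ) ^ (2 * k) ≤ 1212 ^ (2 * k) * L ^ (k ^ 2) := le_mul_of_one_le_right (by positivity) hLk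
      calc 2 ^ k * (T * MZ k (-Δ) T) + 1212 ^ (2 * k) * T ≤
          2 ^ k * (T * (|K| * L ^ (k ^ 2))) + 1212 ^ (2 * k) * L ^ (k ^ 2) * T := by gcongr
        _ = _ := by ring
    exact le_of_mul_le_mul_left h5 hT
  · exact up_of_pos hk h H

/-- uniform asymptotic formula to the right of the line, scale `1 / log T` -/
lemma asy {k : ℕ} (hk : 1 ≤ k) (H : ∃ K : ℝ, ∀ᶠ T in atTop, MZ k 0 T ≤ K * Real.log T ^ (k ^ 2)) {e : ℝ}
    (he : 0 < e) : ∃ C : ℝ, 0 < C ∧ ∀ᶠ T in atTop, ∀ δ : ℝ, C / Real.log T ≤ δ → δ ≤ 1 / 16 →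
      |MZ k δ T - SS k (2 * δ)| ≤ e * SS k (2 * δ) := by
  obtain ⟨K, hK⟩ := H
  have h := L7 (X := fun _ => 1) hk (fun _ => le_rfl) ⟨1, Eventually.of_forall fun _ => by norm_num⟩
    ⟨K, by
      filter_upwards [hK, Real.tendsto_log_atTop.eventually_ge_atTop 0] with T hT hL
      refine hT.trans (mul_le_mul_of_nonneg_right ?_ (by positivity))
      rw [mul_one]
      linarith [Real.add_one_le_exp K]⟩ e he
  simpa only [mul_one] using h

/-- moments at distance `± R / log T`, window `[0, 2T]` -/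
theorem vert {k : ℕ} (hk : 1 ≤ k) (H : ∃ K : ℝ, ∀ᶠ T in atTop, MZ k 0 T ≤ K * Real.log T ^ (k ^ 2)) :
    ∃ C : ℝ, 0 < C ∧ ∀ R : ℝ, C ≤ R → ∃ K : ℝ, 0 < K ∧ ∀ᶠ T in atTop,
      Nk k (1 / 2 + R / Real.log T) (2 * T) ≤ K * (T * Real.log T ^ (k ^ 2)) ∧
      Nk k (1 / 2 - R / Real.log T) (2 * T) ≤ K * (T * Real.log T ^ (k ^ 2)) := by
  obtain ⟨C, hC, hasy⟩ := asy hk H one_pos
  obtain ⟨D, hD, hup⟩ := SS_up hk
  refine ⟨C, hC, fun R hR => ?_⟩
  have hR0 : 0 < R := by linarith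
  set K1 : ℝ := 2 * 2 * D / (2 * R) ^ (k ^ 2) with hK1
  have hK10 : 0 < K1 := by positivity
  set K2 : ℝ := Real.exp (4 * k * R) * (2 ^ k * K1 + 2 * 1212 ^ (2 * k)) with hK2
  refine ⟨K1 + K2, by positivity, ?_⟩
  filter_upwards [two_T.eventually hasy, small R (show (0:ℝ) < 1 / 16 by norm_num), eventually_ge_atTop (2:ℝ),
    Real.tendsto_log_atTop.eventually_ge_atTop 1] with T h1 h2 hT hL
  have hT0 : 0 < T := by linarith
  set L := Real.log T with hLdef
  have hL0 : 0 < L := by linarith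
  set δ := R / L with hδ
  have hδ0 : 0 < δ := by positivity
  rw [abs_of_pos hδ0] at h2
  have hLL : L ≤ Real.log (2 * T) := Real.log_le_log hT0 (by linarith)
  have h3 := h1 δ (by rw [hδ]; gcongr) h2.le
  have h4 := hup (2 * δ) (by positivity) (by linarith)
  have h5 : MZ k δ (2 * T) ≤ 2 * SS k (2 * δ) := by
    have := (abs_le.mp h3).2
    linarith
  have h6 : SS k (2 * δ) ≤ D / (2 * R) ^ (k ^ 2) * L ^ (k ^ 2) := by
    have e : 2 * δ = 2 * R / L := by rw [hδ]; ring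
    rw [e, div_pow] at h4
    rw [e, div_mul_eq_mul_div, le_div_iff₀ (by positivity)]
    have h7 := mul_le_mul_of_nonneg_right h4 (show 0 ≤ L ^ (k ^ 2) by positivity)
    calc SS k (2 * R / L) * (2 * R) ^ (k ^ 2) = (2 * R) ^ (k ^ 2) / L ^ (k ^ 2) * SS k (2 * R / L) * L ^ (k ^ 2) := by
          field_simp
      _ ≤ D * L ^ (k ^ 2) := h7
  have hN1 : Nk k (1 / 2 + δ) (2 * T) ≤ K1 * (T * L ^ (k ^ 2)) := by
    rw [Nk_MZ k δ (by positivity)]
    calc 2 * T * MZ k δ (2 * T) ≤ 2 * T * (2 * (D / (2 * R) ^ (k ^ 2) * L ^ (k ^ 2))) := by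
          gcongr
          exact h5.trans (by linarith)
      _ = _ := by rw [hK1]; ring
  have hTL : T ≤ T * L ^ (k ^ 2) := le_mul_of_one_le_right hT0.le (one_le_pow₀ hL)
  have hN2 : Nk k (1 / 2 - δ) (2 * T) ≤ K2 * (T * L ^ (k ^ 2)) := by
    have hc1 := zp_cont (σ := 1 / 2 + δ) k (by linarith)
    have hc2 := zp_cont (σ := 1 / 2 - δ) k (by linarith)
    have e3 : (2 * T) ^ (((2 * k : ℕ) : ℝ) * δ) ≤ Real.exp (4 * k * R) := by
      rw [Real.rpow_def_of_pos (by positivity)]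
      refine Real.exp_le_exp.mpr ?_
      have h8 := log_two_T hT
      rw [← hLdef] at h8
      calc Real.log (2 * T) * (((2 * k : ℕ) : ℝ) * δ) ≤ (2 * L) * (((2 * k : ℕ) : ℝ) * δ) := by gcongr
        _ = 4 * k * R := by rw [hδ]; push_cast; field_simp; ring
    have h7 : Nk k (1 / 2 - δ) (2 * T) ≤
        Real.exp (4 * k * R) * (2 ^ k * Nk k (1 / 2 + δ) (2 * T) + 1212 ^ (2 * k) * (2 * T)) := by
      unfold Nk
      calc ∫ t in (0:ℝ)..(2 * T), zn (1 / 2 - δ) t ^ (2 * k) ≤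
            ∫ t in (0:ℝ)..(2 * T), Real.exp (4 * k * R) * (2 ^ k * zn (1 / 2 + δ) t ^ (2 * k) + 1212 ^ (2 * k)) :=
            intervalIntegral.integral_mono_on (by linarith) (hc2.intervalIntegrable _ _)
              (Continuous.intervalIntegrable (by fun_prop) _ _) fun t ht => by
                have h9 := fe_k (X := 2 * T) (τ := t) k hδ0.le (by linarith) (by linarith)
                  (by rw [abs_of_nonneg ht.1]; exact ht.2)
                have h10 := zp_nonneg (1 / 2 + δ) t k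
                exact h9.trans (mul_le_mul_of_nonneg_right e3 (by positivity))
        _ = _ := by
            have hi1 : IntervalIntegrable (fun t => (2:ℝ) ^ k * zn (1 / 2 + δ) t ^ (2 * k)) volume 0 (2 * T) :=
              Continuous.intervalIntegrable (by fun_prop) _ _
            rw [intervalIntegral.integral_const_mul, intervalIntegral.integral_add hi1 intervalIntegrable_const,
              intervalIntegral.integral_const_mul, intervalIntegral.integral_const, smul_eq_mul, sub_zero]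
            ring
    refine h7.trans ?_
    calc Real.exp (4 * k * R) * (2 ^ k * Nk k (1 / 2 + δ) (2 * T) + 1212 ^ (2 * k) * (2 * T)) ≤
        Real.exp (4 * k * R) * (2 ^ k * (K1 * (T * L ^ (k ^ 2))) + 1212 ^ (2 * k) * (2 * (T * L ^ (k ^ 2)))) := by gcongr
      _ = _ := by rw [hK2]; ring
  have hp : 0 ≤ T * L ^ (k ^ 2) := by positivity
  constructor
  · refine hN1.trans (mul_le_mul_of_nonneg_right ?_ hp)
    have : 0 < K2 := by positivity
    linarith
  · refine hN2.trans (mul_le_mul_of_nonneg_right ?_ hp)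
    linarith

end Pool.Agent.J4H26.VP
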