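import Pool.Agent.J4H26.VP.Fp

set_option autoImplicit false

/-! The functional equation of the limit function. -/

namespace Pool.Agent.J4H26.VP

open MeasureTheory Filter Topology Complex Pool.Agent.H306R2 Pool.Agent.W184 Pool.Agent.J4H26.EQ

variable {k : ℕ} {F : ℂ → ℂ}

/-- the factor `(1 + 16/τ)^{2k}` -/
lemma fac (k : ℕ) {η : ℝ} (hη : 0 < η) : ∃ τ0 : ℝ, 100 ≤ τ0 ∧ ∀ τ : ℝ, τ0 ≤ τ → (1 + 16 / τ) ^ (2 * k) ≤ 1 + η := by
  have h : Tendsto (fun τ : ℝ => (1 + 16 / τ) ^ (2 * k)) atTop (𝓝 1) := by
    have h1 : Tendsto (fun τ : ℝ => 1 + 16 / τ) atTop (𝓝 (1 + 0)) :=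
      (tendsto_const_nhds.div_atTop tendsto_id).const_add 1
    have := h1.pow (2 * k)
    simpa using this
  obtain ⟨t, ht⟩ := eventually_atTop.mp (h.eventually_le_const (show (1:ℝ) < 1 + η by linarith))
  exact ⟨max t 100, le_max_right _ _, fun τ hτ => ht τ ((le_max_left _ _).trans hτ)⟩

lemma c_lim (k : ℕ) (C : ℝ) : Tendsto (fun T : ℝ => C / (T * Real.log T ^ (k ^ 2))) atTop (𝓝 0) := by
  refine tendsto_const_nhds.div_atTop ?_
  refine tendsto_atTop_mono' _ ?_ tendsto_id
  filter_upwards [eventually_gt_atTop (0:ℝ), Real.tendsto_log_atTop.eventually_ge_atTop 1] with T h1 h2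
  exact le_mul_of_one_le_right h1.le (one_le_pow₀ h2)

/-- upper bound to the left of the line -/
lemma fe_up (hF : Continuous F) (hl : TendstoLocallyUniformly (ft k) F atTop) {x : ℝ} (hx : 0 < x) :
    (F ((-x : ℝ) : ℂ)).re ≤ Real.exp (2 * k * x) * (F x).re := by
  have key : ∀ η : ℝ, 0 < η → (F ((-x : ℝ) : ℂ)).re ≤ (1 + η) * (Real.exp (2 * k * x) * (F x).re) := by
    intro η hη
    obtain ⟨τ0, hτ0, hfac⟩ := fac k hη
    have h1 := re_lim hF hl (-x)
    have h2 := (c_lim k (τ0 * (288 ^ k * (1 + τ0 ^ 2) ^ k))).add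
      ((re_lim hF hl x).const_mul ((1 + η) * Real.exp (2 * k * x)))
    rw [zero_add] at h2
    have h3 : (F ((-x : ℝ) : ℂ)).re ≤ (1 + η) * Real.exp (2 * k * x) * (F x).re := by
      refine le_of_tendsto_of_tendsto h1 h2 ?_
      filter_upwards [eventually_ge_atTop τ0, Real.tendsto_log_atTop.eventually_ge_atTop 1,
        small x (show (0:ℝ) < 1 / 8 by norm_num)] with T hT hL h4
      set L := Real.log T with hLdef
      have hT0 : 0 < T := by linarith
      have hL0 : 0 < L := by linarith
      set δ := x / L with hδ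
      have hδ0 : 0 < δ := by positivity
      rw [abs_of_pos hδ0] at h4
      have hc1 := zp_cont (σ := 1 / 2 + δ) k (by linarith)
      have hc2 := zp_cont (σ := 1 / 2 - δ) k (by linarith)
      have hsplit : Nk k (1 / 2 - δ) T = Nk k (1 / 2 - δ) τ0 + ∫ t in τ0..T, zn (1 / 2 - δ) t ^ (2 * k) := by
        unfold Nk
        rw [intervalIntegral.integral_add_adjacent_intervals (hc2.intervalIntegrable _ _)
          (hc2.intervalIntegrable _ _)]
      have hcr := Nk_crude k (σ := 1 / 2 - δ) (T := τ0) (by linarith) (by linarith) (by linarith)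
      have hTe : ∀ t : ℝ, 0 < t → t ≤ T → t ^ δ ≤ Real.exp x := by
        intro t ht htT
        calc t ^ δ ≤ T ^ δ := Real.rpow_le_rpow ht.le htT hδ0.le
          _ = Real.exp x := by
            rw [Real.rpow_def_of_pos hT0, hδ]; congr 1; rw [← hLdef]; field_simp
      have htail : ∫ t in τ0..T, zn (1 / 2 - δ) t ^ (2 * k) ≤
          (1 + η) * Real.exp (2 * k * x) * Nk k (1 / 2 + δ) T := by
        calc ∫ t in τ0..T, zn (1 / 2 - δ) t ^ (2 * k) ≤
              ∫ t in τ0..T, (1 + η) * Real.exp (2 * k * x) * zn (1 / 2 + δ) t ^ (2 * k) := by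
              refine intervalIntegral.integral_mono_on hT (hc2.intervalIntegrable _ _)
                (Continuous.intervalIntegrable (by fun_prop) _ _) fun t ht => ?_
              have ht0 : 0 < t := by linarith [ht.1]
              have h5 := fe_pos hδ0.le h4.le (τ := t) (by linarith [ht.1])
              have h6 : zn (1 / 2 - δ) t ≤ Real.exp x * (1 + 16 / t) * zn (1 / 2 + δ) t := by
                refine h5.trans ?_
                have := hTe t ht0 ht.2
                have hz := zn_nonneg (1 / 2 + δ) t
                exact mul_le_mul_of_nonneg_right (mul_le_mul_of_nonneg_right this (by positivity)) hz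
              have h7 := pow_le_pow_left₀ (zn_nonneg _ _) h6 (2 * k)
              have h8 := hfac t ht.1
              have e1 : Real.exp x ^ (2 * k) = Real.exp (2 * k * x) := by
                rw [← Real.exp_nat_mul]; congr 1; push_cast; ring
              have hz2 := zp_nonneg (1 / 2 + δ) t k
              calc zn (1 / 2 - δ) t ^ (2 * k) ≤ (Real.exp x * (1 + 16 / t) * zn (1 / 2 + δ) t) ^ (2 * k) := h7
                _ = (1 + 16 / t) ^ (2 * k) * Real.exp (2 * k * x) * zn (1 / 2 + δ) t ^ (2 * k) := by
                    rw [mul_pow, mul_pow, e1]; ring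
                _ ≤ _ := by gcongr
          _ = (1 + η) * Real.exp (2 * k * x) * ∫ t in τ0..T, zn (1 / 2 + δ) t ^ (2 * k) := by
              rw [intervalIntegral.integral_const_mul]
          _ ≤ _ := by
              refine mul_le_mul_of_nonneg_left ?_ (by positivity)
              unfold Nk
              exact intervalIntegral.integral_mono_interval (by linarith) hT le_rfl
                (Eventually.of_forall fun _ => zp_nonneg _ _ _) (hc1.intervalIntegrable _ _)
      rw [neg_div, ← sub_eq_add_neg, hsplit, ← mul_div_assoc, ← add_div]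
      gcongr
    linarith
  have hlim : Tendsto (fun η : ℝ => (1 + η) * (Real.exp (2 * k * x) * (F x).re)) (𝓝[>] 0)
      (𝓝 (Real.exp (2 * k * x) * (F x).re)) := by
    have : Tendsto (fun η : ℝ => (1 + η) * (Real.exp (2 * k * x) * (F x).re)) (𝓝 0)
        (𝓝 ((1 + 0) * (Real.exp (2 * k * x) * (F x).re))) := by
      exact Continuous.tendsto (by fun_prop) 0
    rw [add_zero, one_mul] at this
    exact this.mono_left nhdsWithin_le_nhds
  exact ge_of_tendsto hlim (by filter_upwards [self_mem_nhdsWithin] with η hη using key η hη)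

/-- lower bound to the left of the line -/
lemma fe_lo (hF : Continuous F) (hl : TendstoLocallyUniformly (ft k) F atTop) {x : ℝ} (hx : 0 < x) :
    Real.exp (2 * k * x) * (F x).re ≤ (F ((-x : ℝ) : ℂ)).re := by
  have key : ∀ η : ℝ, 0 < η → (F x).re ≤ η * (F x).re + (1 + η) * (Real.exp (-(2 * k * x)) * (F ((-x : ℝ) : ℂ)).re) := by
    intro η hη
    obtain ⟨τ0, hτ0, hfac⟩ := fac k hη
    have hηT : Tendsto (fun T : ℝ => (η * T) / T) atTop (𝓝 η) := by
      refine tendsto_const_nhds.congr' ?_
      filter_upwards [eventually_gt_atTop (0:ℝ)] with T hT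
      field_simp
    have h1 := re_lim hF hl x
    have hE : Tendsto (fun T : ℝ => Real.exp (-(2 * k * x)) * Real.exp (-(2 * k * (x / Real.log T) * Real.log (η / (2 * Real.pi)))))
        atTop (𝓝 (Real.exp (-(2 * k * x)))) := by
      have g1 : Tendsto (fun T : ℝ => x / Real.log T) atTop (𝓝 0) := tendsto_const_nhds.div_atTop Real.tendsto_log_atTop
      have g2 : Continuous (fun u : ℝ => Real.exp (-(2 * k * x)) * Real.exp (-(2 * k * u * Real.log (η / (2 * Real.pi))))) := by
        fun_prop
      have g3 := (g2.tendsto 0).comp g1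
      simp only [mul_zero, zero_mul, neg_zero, Real.exp_zero, mul_one] at g3
      exact g3
    have h2 := (win_lim hF hl x hη hηT).add ((hE.const_mul (1 + η)).mul (re_lim hF hl (-x)))
    have h3 : (F x).re ≤ η * (F x).re + (1 + η) * Real.exp (-(2 * k * x)) * (F ((-x : ℝ) : ℂ)).re := by
      refine le_of_tendsto_of_tendsto h1 h2 ?_
      filter_upwards [eventually_gt_atTop (0:ℝ), (tendsto_id.const_mul_atTop hη).eventually_ge_atTop τ0,
        Real.tendsto_log_atTop.eventually_ge_atTop 1,
        small x (show (0:ℝ) < 1 / 8 by norm_num)] with T hT0 hηT0 hL h4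
      simp only [id] at hηT0
      set L := Real.log T with hLdef
      have hL0 : 0 < L := by linarith
      set δ := x / L with hδ
      have hδ0 : 0 < δ := by positivity
      rw [abs_of_pos hδ0] at h4
      have hc1 := zp_cont (σ := 1 / 2 + δ) k (by linarith)
      have hc2 := zp_cont (σ := 1 / 2 - δ) k (by linarith)
      have hηT1 : 0 < η * T := by positivity
      set D := Real.exp (-(2 * k * x)) * Real.exp (-(2 * k * δ * Real.log (η / (2 * Real.pi)))) with hD
      have hD0 : 0 < D := by positivity
      have hmain : Nk k (1 / 2 + δ) T ≤ Nk k (1 / 2 + δ) (η * T) + (1 + η) * D * Nk k (1 / 2 - δ) T := by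
        rcases le_or_gt T (η * T) with hc | hc
        · have g1 := Nk_mono k (σ := 1 / 2 + δ) (by linarith) hT0.le hc
          have g2 := Nk_nonneg k (1 / 2 - δ) hT0.le
          have g3 : 0 ≤ (1 + η) * D * Nk k (1 / 2 - δ) T := by positivity
          linarith
        · have hsplit : Nk k (1 / 2 + δ) T = Nk k (1 / 2 + δ) (η * T) + ∫ t in (η * T)..T, zn (1 / 2 + δ) t ^ (2 * k) := by
            unfold Nk
            rw [intervalIntegral.integral_add_adjacent_intervals (hc1.intervalIntegrable _ _)
              (hc1.intervalIntegrable _ _)]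
          rw [hsplit]
          gcongr
          calc ∫ t in (η * T)..T, zn (1 / 2 + δ) t ^ (2 * k) ≤
                ∫ t in (η * T)..T, (1 + η) * D * zn (1 / 2 - δ) t ^ (2 * k) := by
                refine intervalIntegral.integral_mono_on hc.le (hc1.intervalIntegrable _ _)
                  (Continuous.intervalIntegrable (by fun_prop) _ _) fun t ht => ?_
                have ht0 : 0 < t := lt_of_lt_of_le hηT1 ht.1
                have ht1 : 100 ≤ t := by linarith [ht.1]
                have h5 := fe_rev hδ0.le h4.le ht1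
                have h8 := hfac t (hηT0.trans ht.1)
                have e1 : Real.exp (-(δ * Real.log (t / (2 * Real.pi)))) ^ (2 * k) ≤ D := by
                  rw [← Real.exp_nat_mul, hD, ← Real.exp_add]
                  refine Real.exp_le_exp.mpr ?_
                  have g1 : Real.log (T * (η / (2 * Real.pi))) ≤ Real.log (t / (2 * Real.pi)) := by
                    refine Real.log_le_log (by positivity) ?_
                    rw [← mul_div_assoc]
                    gcongr
                    linarith [ht.1]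
                  rw [Real.log_mul hT0.ne' (by positivity), ← hLdef] at g1
                  have g2 : 2 * k * x = 2 * k * δ * L := by rw [hδ]; field_simp
                  rw [g2]
                  push_cast
                  have g3 : 0 ≤ 2 * (k:ℝ) * δ := by positivity
                  nlinarith [mul_le_mul_of_nonneg_left g1 g3]
                have h7 := pow_le_pow_left₀ (zn_nonneg _ _) h5 (2 * k)
                have hz2 := zp_nonneg (1 / 2 - δ) t k
                calc zn (1 / 2 + δ) t ^ (2 * k) ≤
                    (Real.exp (-(δ * Real.log (t / (2 * Real.pi)))) * (1 + 16 / t) * zn (1 / 2 - δ) t) ^ (2 * k) := h7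
                  _ = (1 + 16 / t) ^ (2 * k) * Real.exp (-(δ * Real.log (t / (2 * Real.pi)))) ^ (2 * k) *
                      zn (1 / 2 - δ) t ^ (2 * k) := by rw [mul_pow, mul_pow]; ring
                  _ ≤ _ := by gcongr
            _ = (1 + η) * D * ∫ t in (η * T)..T, zn (1 / 2 - δ) t ^ (2 * k) := by
                rw [intervalIntegral.integral_const_mul]
            _ ≤ _ := by
                refine mul_le_mul_of_nonneg_left ?_ (by positivity)
                unfold Nk
                exact intervalIntegral.integral_mono_interval hηT1.le hc.le le_rfl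
                  (Eventually.of_forall fun _ => zp_nonneg _ _ _) (hc2.intervalIntegrable _ _)
      rw [neg_div, ← sub_eq_add_neg, ← mul_div_assoc, ← add_div]
      gcongr
    linarith
  have hlim : Tendsto (fun η : ℝ => η * (F x).re + (1 + η) * (Real.exp (-(2 * k * x)) * (F ((-x : ℝ) : ℂ)).re)) (𝓝[>] 0)
      (𝓝 (Real.exp (-(2 * k * x)) * (F ((-x : ℝ) : ℂ)).re)) := by
    have : Tendsto (fun η : ℝ => η * (F x).re + (1 + η) * (Real.exp (-(2 * k * x)) * (F ((-x : ℝ) : ℂ)).re)) (𝓝 0)
        (𝓝 (0 * (F x).re + (1 + 0) * (Real.exp (-(2 * k * x)) * (F ((-x : ℝ) : ℂ)).re))) := by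
      exact Continuous.tendsto (by fun_prop) 0
    rw [add_zero, one_mul, zero_mul, zero_add] at this
    exact this.mono_left nhdsWithin_le_nhds
  have hfin : (F x).re ≤ Real.exp (-(2 * k * x)) * (F ((-x : ℝ) : ℂ)).re :=
    ge_of_tendsto hlim (by filter_upwards [self_mem_nhdsWithin] with η hη using key η hη)
  have h5 := mul_le_mul_of_nonneg_left hfin (Real.exp_pos (2 * k * x)).le
  rwa [← mul_assoc, ← Real.exp_add, add_neg_cancel, Real.exp_zero, one_mul] at h5

/-- the functional equation `F(-z) = e^{2kz} F(z)` -/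
theorem F_fe (hF : Differentiable ℂ F) (hl : TendstoLocallyUniformly (ft k) F atTop) (z : ℂ) :
    F (-z) = Complex.exp (2 * k * z) * F z := by
  have hreal : ∀ x : ℝ, 0 < x → F (-(x : ℂ)) = Complex.exp (2 * k * x) * F x := by
    intro x hx
    have h1 := fe_up hF.continuous hl hx
    have h2 := fe_lo hF.continuous hl hx
    have h3 := im_zero hF.continuous hl x
    have h4 := im_zero hF.continuous hl (-x)
    have h5 : F x = ((F x).re : ℂ) := Complex.ext (Complex.ofReal_re _).symm (by rw [h3, Complex.ofReal_im])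
    have h6 : F ((-x : ℝ) : ℂ) = ((F ((-x : ℝ) : ℂ)).re : ℂ) :=
      Complex.ext (Complex.ofReal_re _).symm (by rw [h4, Complex.ofReal_im])
    have h7 : (F ((-x : ℝ) : ℂ)).re = Real.exp (2 * k * x) * (F x).re := le_antisymm h1 h2
    rw [← Complex.ofReal_neg, h6, h7, h5]
    push_cast
    simp
  have h1 : AnalyticOnNhd ℂ (fun z => F (-z)) Set.univ :=
    (hF.comp differentiable_neg).differentiableOn.analyticOnNhd isOpen_univ
  have h2 : AnalyticOnNhd ℂ (fun z : ℂ => Complex.exp (2 * k * z) * F z) Set.univ := by
    refine DifferentiableOn.analyticOnNhd (Differentiable.differentiableOn ?_) isOpen_univ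
    exact Differentiable.mul (by fun_prop) hF
  have h3 : ∃ᶠ z in 𝓝[≠] (1 : ℂ), F (-z) = Complex.exp (2 * k * z) * F z := by
    have ht : Tendsto (fun n : ℕ => (((1:ℝ) + 1 / ((n:ℝ) + 1) : ℝ) : ℂ)) atTop (𝓝[≠] (1 : ℂ)) := by
      rw [tendsto_nhdsWithin_iff]
      constructor
      · have h4 : Tendsto (fun n : ℕ => (1:ℝ) + 1 / ((n:ℝ) + 1)) atTop (𝓝 (1 + 0)) :=
          tendsto_one_div_add_atTop_nhds_zero_nat.const_add 1
        rw [add_zero] at h4
        have h5 := (Complex.continuous_ofReal.tendsto 1).comp h4
        rwa [Complex.ofReal_one] at h5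
      · refine Eventually.of_forall fun n hn => ?_
        have h4 : (((1:ℝ) + 1 / ((n:ℝ) + 1) : ℝ) : ℂ) = 1 := hn
        have h5 : (1:ℝ) + 1 / ((n:ℝ) + 1) = 1 := by exact_mod_cast h4
        have : (0:ℝ) < 1 / ((n:ℝ) + 1) := by positivity
        linarith
    exact ht.frequently (Frequently.of_forall fun n => hreal _ (by positivity))
  exact congrFun (h1.eq_of_frequently_eq h2 h3) z

end Pool.Agent.J4H26.VP
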