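import Pool.Agent.J4H26.VP.Lb

set_option autoImplicit false

/-! Properties of the limit function. -/

namespace Pool.Agent.J4H26.VP

open MeasureTheory Filter Topology Complex Pool.Agent.H306R2 Pool.Agent.W184 Pool.Agent.J4H26.EQ

variable {k : ℕ} {F : ℂ → ℂ}

lemma ft_real (k : ℕ) (T x : ℝ) :
    ft k T x = ((Nk k (1 / 2 + x / Real.log T) T / (T * Real.log T ^ (k ^ 2)) : ℝ) : ℂ) := by
  unfold ft
  rw [← Complex.ofReal_div, Jk_real]
  push_cast
  rfl

lemma comp_lim (hF : Continuous F) (hl : TendstoLocallyUniformly (ft k) F atTop) {τ : ℝ → ℝ} {ξ : ℝ → ℂ} {z : ℂ}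
    (hτ : Tendsto τ atTop atTop) (hξ : Tendsto ξ atTop (𝓝 z)) :
    Tendsto (fun T => ft k (τ T) (ξ T)) atTop (𝓝 (F z)) := by
  rw [Metric.tendsto_nhds]
  intro e he
  rw [Metric.tendstoLocallyUniformly_iff] at hl
  obtain ⟨t, ht, h1⟩ := hl (e / 2) (by positivity) z
  have h2 := (hF.tendsto z).comp hξ
  rw [Metric.tendsto_nhds] at h2
  filter_upwards [hξ.eventually ht, hτ.eventually h1, h2 (e / 2) (by positivity)] with T a b c
  have b' := b (ξ T) a
  have c' : dist (F (ξ T)) (F z) < e / 2 := c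
  calc dist (ft k (τ T) (ξ T)) (F z) ≤ dist (ft k (τ T) (ξ T)) (F (ξ T)) + dist (F (ξ T)) (F z) := dist_triangle _ _ _
    _ < e := by rw [dist_comm (ft k (τ T) (ξ T))]; linarith

lemma at_lim (hF : Continuous F) (hl : TendstoLocallyUniformly (ft k) F atTop) (z : ℂ) :
    Tendsto (fun T => ft k T z) atTop (𝓝 (F z)) :=
  comp_lim hF hl tendsto_id tendsto_const_nhds

lemma re_lim (hF : Continuous F) (hl : TendstoLocallyUniformly (ft k) F atTop) (x : ℝ) :
    Tendsto (fun T => Nk k (1 / 2 + x / Real.log T) T / (T * Real.log T ^ (k ^ 2))) atTop (𝓝 (F x).re) := by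
  have h := (Complex.continuous_re.tendsto _).comp (at_lim hF hl x)
  refine h.congr fun T => ?_
  simp only [Function.comp, ft_real, Complex.ofReal_re]

lemma im_zero (hF : Continuous F) (hl : TendstoLocallyUniformly (ft k) F atTop) (x : ℝ) : (F x).im = 0 := by
  have h := (Complex.continuous_im.tendsto _).comp (at_lim hF hl x)
  refine tendsto_nhds_unique h ?_
  refine tendsto_const_nhds.congr fun T => ?_
  simp only [Function.comp, ft_real, Complex.ofReal_im]

lemma re_nonneg (hF : Continuous F) (hl : TendstoLocallyUniformly (ft k) F atTop) (x : ℝ) : 0 ≤ (F x).re := by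
  refine ge_of_tendsto (re_lim hF hl x) ?_
  filter_upwards [eventually_gt_atTop (0:ℝ), Real.tendsto_log_atTop.eventually_ge_atTop 0] with T h1 h2
  have := Nk_nonneg k (1 / 2 + x / Real.log T) h1.le
  positivity

/-- other windows -/
lemma win_lim (hF : Continuous F) (hl : TendstoLocallyUniformly (ft k) F atTop) (x : ℝ) {τ : ℝ → ℝ} {c : ℝ}
    (hc : 0 < c) (hτ : Tendsto (fun T => τ T / T) atTop (𝓝 c)) :
    Tendsto (fun T => Nk k (1 / 2 + x / Real.log T) (τ T) / (T * Real.log T ^ (k ^ 2))) atTop (𝓝 (c * (F x).re)) := by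
  have hlog := Real.tendsto_log_atTop
  have hτ1 : Tendsto τ atTop atTop := by
    have h := hτ.pos_mul_atTop hc tendsto_id
    refine h.congr' ?_
    filter_upwards [eventually_gt_atTop (0:ℝ)] with T hT
    simp only [id]
    field_simp
  have hr : Tendsto (fun T => Real.log (τ T) / Real.log T) atTop (𝓝 1) := by
    have h1 : Tendsto (fun T => Real.log (τ T / T)) atTop (𝓝 (Real.log c)) := hτ.log hc.ne'
    have h2 := (h1.div_atTop hlog).const_add 1
    rw [add_zero] at h2
    refine h2.congr' ?_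
    filter_upwards [eventually_gt_atTop (0:ℝ), hτ1.eventually_gt_atTop 0, hlog.eventually_gt_atTop 0] with T a b d
    rw [Real.log_div b.ne' a.ne']
    field_simp
    ring
  have hξ : Tendsto (fun T => x * (Real.log (τ T) / Real.log T)) atTop (𝓝 x) := by
    have := hr.const_mul x
    rwa [mul_one] at this
  have hξc : Tendsto (fun T => ((x * (Real.log (τ T) / Real.log T) : ℝ) : ℂ)) atTop (𝓝 (x : ℂ)) :=
    (Complex.continuous_ofReal.tendsto x).comp hξ
  have h := (Complex.continuous_re.tendsto _).comp (comp_lim hF hl hτ1 hξc)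
  have h3 := (hτ.mul (hr.pow (k ^ 2))).mul h
  rw [one_pow, mul_one] at h3
  refine h3.congr' ?_
  filter_upwards [eventually_gt_atTop (0:ℝ), hτ1.eventually_gt_atTop 0, hlog.eventually_gt_atTop 0,
    (hlog.comp hτ1).eventually_gt_atTop 0] with T a b d e
  simp only [Function.comp] at e ⊢
  rw [ft_real, Complex.ofReal_re]
  have e1 : x * (Real.log (τ T) / Real.log T) / Real.log (τ T) = x / Real.log T := by field_simp
  rw [e1, div_pow]
  field_simp

lemma one_lim (k : ℕ) (x : ℝ) : Tendsto (fun T => Nk k (1 / 2 + x / Real.log T) 1 / (T * Real.log T ^ (k ^ 2)))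
    atTop (𝓝 0) := by
  have h : Tendsto (fun T : ℝ => (1 * (288 ^ k * (1 + 1 ^ 2) ^ k) : ℝ) / T) atTop (𝓝 0) :=
    tendsto_const_nhds.div_atTop tendsto_id
  refine squeeze_zero' ?_ ?_ h
  · filter_upwards [eventually_gt_atTop (0:ℝ), Real.tendsto_log_atTop.eventually_ge_atTop 0] with T h1 h2
    have := Nk_nonneg k (1 / 2 + x / Real.log T) zero_le_one
    positivity
  · filter_upwards [eventually_gt_atTop (0:ℝ), Real.tendsto_log_atTop.eventually_ge_atTop 1,
      small x (show (0:ℝ) < 1 / 8 by norm_num)] with T h1 h2 h3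
    have h4 := abs_lt.mp h3
    have h5 := Nk_crude k (σ := 1 / 2 + x / Real.log T) (T := 1) (by linarith) (by linarith) zero_le_one
    have h6 : T ≤ T * Real.log T ^ (k ^ 2) := le_mul_of_one_le_right h1.le (one_le_pow₀ h2)
    exact div_le_div₀ (by positivity) h5 h1 h6

/-- on vertical lines the maximum is on the real axis -/
lemma vert_le (hF : Continuous F) (hl : TendstoLocallyUniformly (ft k) F atTop) (z : ℂ) :
    ‖F z‖ ≤ (F z.re).re := by
  have h1 := (at_lim hF hl z).norm
  have hτ : Tendsto (fun T : ℝ => (T + 1) / T) atTop (𝓝 1) := by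
    have : Tendsto (fun T : ℝ => 1 + 1 / T) atTop (𝓝 (1 + 0)) :=
      (tendsto_const_nhds.div_atTop tendsto_id).const_add 1
    rw [add_zero] at this
    refine this.congr' ?_
    filter_upwards [eventually_gt_atTop (0:ℝ)] with T hT
    field_simp
  have h2 := (win_lim hF hl z.re one_pos hτ).add (one_lim k z.re)
  rw [one_mul, add_zero] at h2
  refine le_of_tendsto_of_tendsto h1 h2 ?_
  filter_upwards [eventually_gt_atTop (0:ℝ), Real.tendsto_log_atTop.eventually_ge_atTop 1,
    small z.re (show (0:ℝ) < 1 / 8 by norm_num), small z.im one_pos] with T hT hL h3 h4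
  have hL0 : 0 < Real.log T := by linarith
  have h5 := abs_lt.mp h3
  have h6 := Jk_le k (w := z / (Real.log T : ℂ)) (T := T) (by rw [div_re']; linarith) hT.le
    (by rw [div_im']; exact h4.le)
  rw [div_re'] at h6
  unfold ft
  rw [norm_div, Complex.norm_real, Real.norm_of_nonneg (by positivity), ← add_div]
  gcongr

/-- the moments are bounded by `(log T)^{k²}` -/
lemma up_of_lim (_hk : 1 ≤ k) (hF : Continuous F) (hl : TendstoLocallyUniformly (ft k) F atTop) :
    ∃ K : ℝ, ∀ᶠ T in atTop, MZ k 0 T ≤ K * Real.log T ^ (k ^ 2) := by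
  refine ⟨(F (0:ℝ)).re + 1, ?_⟩
  have h := (re_lim hF hl 0).eventually_lt_const (show (F (0:ℝ)).re < (F (0:ℝ)).re + 1 by linarith)
  filter_upwards [h, eventually_gt_atTop (0:ℝ), Real.tendsto_log_atTop.eventually_gt_atTop 0] with T h1 hT hL
  rw [zero_div, Nk_MZ k 0 hT, div_lt_iff₀ (by positivity)] at h1
  have h2 : T * MZ k 0 T ≤ T * (((F (0:ℝ)).re + 1) * Real.log T ^ (k ^ 2)) := by
    refine h1.le.trans (le_of_eq (by ring))
  exact le_of_mul_le_mul_left h2 hT

/-- behaviour at `+∞` -/
theorem F_asy (hk : 1 ≤ k) (hF : Continuous F) (hl : TendstoLocallyUniformly (ft k) F atTop) :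
    Tendsto (fun x : ℝ => (2 * x) ^ (k ^ 2) * (F x).re) atTop (𝓝 (aF k)) := by
  have hk0 : (0:ℝ) < k := by exact_mod_cast hk
  have ha := aF_pos hk0
  rw [Metric.tendsto_atTop]
  intro e he
  obtain ⟨C, hC, hasy⟩ := asy hk (up_of_lim hk hF hl) (e := e / (2 * aF k)) (by positivity)
  refine ⟨C, fun x hx => ?_⟩
  have hx0 : 0 < x := lt_of_lt_of_le hC hx
  -- the limit of the inequality
  have h1 : Tendsto (fun T : ℝ => 2 * (x / Real.log T)) atTop (𝓝[>] 0) := by
    rw [tendsto_nhdsWithin_iff]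
    constructor
    · have : Tendsto (fun T : ℝ => x / Real.log T) atTop (𝓝 0) := tendsto_const_nhds.div_atTop Real.tendsto_log_atTop
      simpa using this.const_mul 2
    · filter_upwards [Real.tendsto_log_atTop.eventually_gt_atTop 0] with T hT
      show 0 < 2 * (x / Real.log T)
      positivity
  have h2 := (SS_tendsto hk).comp h1
  have h3 := (re_lim hF hl x).const_mul ((2 * x) ^ (k ^ 2))
  have h4 := (h3.sub h2).abs
  have h5 := h2.const_mul (e / (2 * aF k))
  have h6 : |(2 * x) ^ (k ^ 2) * (F x).re - aF k| ≤ e / (2 * aF k) * aF k := by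
    refine le_of_tendsto_of_tendsto h4 h5 ?_
    filter_upwards [hasy, eventually_gt_atTop (0:ℝ), Real.tendsto_log_atTop.eventually_gt_atTop 0,
      small x (show (0:ℝ) < 1 / 16 by norm_num)] with T g1 hT hL g2
    set L := Real.log T with hLdef
    have hxL : 0 < x / L := by positivity
    rw [abs_of_pos hxL] at g2
    have g3 := g1 (x / L) (by gcongr) g2.le
    simp only [Function.comp]
    have e1 : (2 * x) ^ (k ^ 2) * (Nk k (1 / 2 + x / L) T / (T * L ^ (k ^ 2))) =
        (2 * (x / L)) ^ (k ^ 2) * MZ k (x / L) T := by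
      rw [Nk_MZ k _ hT, show 2 * (x / L) = 2 * x / L by ring, div_pow]
      field_simp
    rw [e1, ← mul_sub, abs_mul, abs_of_pos (show (0:ℝ) < (2 * (x / L)) ^ (k ^ 2) by positivity)]
    calc (2 * (x / L)) ^ (k ^ 2) * |MZ k (x / L) T - SS k (2 * (x / L))| ≤
        (2 * (x / L)) ^ (k ^ 2) * (e / (2 * aF k) * SS k (2 * (x / L))) := by gcongr
      _ = _ := by ring
  rw [Real.dist_eq]
  have h7 : e / (2 * aF k) * aF k = e / 2 := by field_simp
  linarith

/-- positivity -/
theorem F_pos (hk : 1 ≤ k) (hF : Differentiable ℂ F) (hl : TendstoLocallyUniformly (ft k) F atTop) (x : ℝ) :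
    0 < (F x).re := by
  rcases (re_nonneg hF.continuous hl x).lt_or_eq with h | h
  · exact h
  exfalso
  have hk0 : (0:ℝ) < k := by exact_mod_cast hk
  have ha := aF_pos hk0
  have hv : ∀ y : ℝ, F (x + y * I) = 0 := by
    intro y
    have h1 := vert_le hF.continuous hl (x + y * I)
    have h2 : ((x : ℂ) + y * I).re = x := by simp
    rw [h2, ← h] at h1
    exact norm_le_zero_iff.mp h1
  have hz : F = 0 := by
    have h1 : AnalyticOnNhd ℂ F Set.univ := hF.differentiableOn.analyticOnNhd isOpen_univ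
    have h2 : AnalyticOnNhd ℂ (0 : ℂ → ℂ) Set.univ := analyticOnNhd_const
    have h3 : ∃ᶠ z in 𝓝[≠] (x : ℂ), F z = (0 : ℂ → ℂ) z := by
      have ht : Tendsto (fun n : ℕ => (x : ℂ) + ((1 / ((n:ℝ) + 1) : ℝ) : ℂ) * I) atTop (𝓝[≠] (x : ℂ)) := by
        rw [tendsto_nhdsWithin_iff]
        constructor
        · have h4 : Tendsto (fun n : ℕ => ((1 / ((n:ℝ) + 1) : ℝ) : ℂ)) atTop (𝓝 ((0:ℝ) : ℂ)) :=
            (Complex.continuous_ofReal.tendsto 0).comp tendsto_one_div_add_atTop_nhds_zero_nat
          have h5 := (h4.mul_const I).const_add (x : ℂ)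
          simpa using h5
        · refine Eventually.of_forall fun n hn => ?_
          have h4 : (x : ℂ) + ((1 / ((n:ℝ) + 1) : ℝ) : ℂ) * I = x := hn
          have h5 := congrArg Complex.im h4
          simp only [Complex.add_im, Complex.ofReal_im, Complex.mul_im, Complex.I_im, Complex.I_re,
            Complex.ofReal_re, mul_one, mul_zero, add_zero, zero_add] at h5
          have : (0:ℝ) < 1 / ((n:ℝ) + 1) := by positivity
          linarith
      exact ht.frequently (Frequently.of_forall fun n => hv _)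
    exact h1.eq_of_frequently_eq h2 h3
  have h4 := F_asy hk hF.continuous hl
  have h5 : (fun x : ℝ => (2 * x) ^ (k ^ 2) * (F x).re) = fun _ => 0 := by
    funext y
    rw [hz]; simp
  rw [h5] at h4
  have := tendsto_nhds_unique h4 tendsto_const_nhds
  linarith

end Pool.Agent.J4H26.VP
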