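import Pool.Agent.J4H26.VP.Fe

set_option autoImplicit false

/-! Convexity and the exponentially precise asymptotic formula for the limit function. -/

namespace Pool.Agent.J4H26.VP

open MeasureTheory Filter Topology Complex Pool.Agent.H306R2 Pool.Agent.W184 Pool.Agent.J4H26.EQ

variable {k : ℕ} {F : ℂ → ℂ}

theorem F_exp (hk : 1 ≤ k) (hF : Continuous F) (hl : TendstoLocallyUniformly (ft k) F atTop) {θ : ℝ}
    (h0 : 0 < θ) (h1 : θ < 1) : ∃ C : ℝ, ∀ x : ℝ, 1 ≤ x → |(F x).re - aF k / (2 * x) ^ (k ^ 2)| ≤ C * Real.exp (-(θ * x)) := by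
  obtain ⟨K, hK⟩ := up_of_lim hk hF hl
  obtain ⟨C1, hC1, hL1⟩ := L1 (X := fun _ => 1) hk (fun _ => le_rfl)
    ⟨1, Eventually.of_forall fun _ => by norm_num⟩
    ⟨K, by
      filter_upwards [hK, Real.tendsto_log_atTop.eventually_ge_atTop 0] with T hT hL
      refine hT.trans (mul_le_mul_of_nonneg_right ?_ (by positivity))
      rw [mul_one]
      linarith [Real.add_one_le_exp K]⟩ h0 h1
  obtain ⟨C2, hC2, hBS⟩ := BZ_SS hk h0 h1
  obtain ⟨D, hD, hup⟩ := SS_up hk
  refine ⟨(2 + C2) * D + 2 * (C1 * Real.exp C1) + (1 + C2) * D, fun x hx => ?_⟩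
  have hx0 : 0 < x := by linarith
  set η := Real.exp (-(θ * x)) with hη
  have hη0 : 0 < η := Real.exp_pos _
  have hη1 : η ≤ 1 := by
    rw [hη, Real.exp_le_one_iff]
    have : 0 < θ * x := by positivity
    linarith
  have hs : Tendsto (fun T : ℝ => 2 * (x / Real.log T)) atTop (𝓝[>] 0) := by
    rw [tendsto_nhdsWithin_iff]
    constructor
    · have : Tendsto (fun T : ℝ => x / Real.log T) atTop (𝓝 0) := tendsto_const_nhds.div_atTop Real.tendsto_log_atTop
      simpa using this.const_mul 2
    · filter_upwards [Real.tendsto_log_atTop.eventually_gt_atTop 0] with T hT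
      show 0 < 2 * (x / Real.log T)
      positivity
  have h2 := ((SS_tendsto hk).comp hs).div_const ((2 * x) ^ (k ^ 2))
  have h4 := ((re_lim hF hl x).sub h2).abs
  refine le_of_tendsto h4 ?_
  filter_upwards [hL1, hBS η hη0, eventually_gt_atTop (0:ℝ), Real.tendsto_log_atTop.eventually_gt_atTop 0,
    small x (show (0:ℝ) < 1 / 16 by norm_num)] with T g1 g2 hT hL g3
  set L := Real.log T with hLdef
  set δ := x / L with hδ
  have hδ0 : 0 < δ := by positivity
  rw [abs_of_pos hδ0] at g3
  have hδL : δ * L = x := by rw [hδ]; field_simp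
  have hE := g1 δ (by rw [hδ]; gcongr) g3.le
  have hB := g2 δ hδ0 (by linarith)
  have e1 : 2 * θ * δ * L = 2 * (θ * x) := by rw [← hδL]; ring
  have e2 : θ * δ * L = θ * x := by rw [← hδL]; ring
  rw [e2, ← hη] at hB
  rw [e1, mul_one] at hE
  have hE2 : EZ k θ δ T ≤ C1 * Real.exp C1 * (η * η) * L ^ (k ^ 2) := by
    have : Real.exp (-(2 * (θ * x))) = η * η := by rw [hη, ← Real.exp_add]; congr 1; ring
    rwa [this] at hE
  have hM := MZ_BZ k θ (δ := δ) hT hη0 (by linarith)
  have hS0 := SS_nonneg k (2 * δ)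
  have hSS : SS k (2 * δ) ≤ D * L ^ (k ^ 2) := by
    have h5 := hup (2 * δ) (by positivity) (by linarith)
    have h6 : 1 / L ^ (k ^ 2) ≤ (2 * δ) ^ (k ^ 2) := by
      rw [one_div, ← inv_pow]
      refine pow_le_pow_left₀ (by positivity) ?_ _
      rw [hδ, ← one_div, ← mul_div_assoc]
      gcongr
      linarith
    have h7 : 1 / L ^ (k ^ 2) * SS k (2 * δ) ≤ D := (mul_le_mul_of_nonneg_right h6 hS0).trans h5
    rw [one_div_mul_eq_div, div_le_iff₀ (by positivity)] at h7
    exact h7
  have hB2 : BZ k θ δ T ≤ (2 + C2) * SS k (2 * δ) := by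
    have h5 := (abs_le.mp hB).2
    have h6 : η + C2 * η ≤ 1 + C2 := by nlinarith
    have h7 := mul_le_mul_of_nonneg_right h6 hS0
    linarith
  have hE3 : (1 + 1 / η) * EZ k θ δ T ≤ 2 * (C1 * Real.exp C1) * η * L ^ (k ^ 2) := by
    have h5 : (1 + 1 / η) * η ≤ 2 := by
      rw [add_mul, one_mul, one_div, inv_mul_cancel₀ hη0.ne']; linarith
    calc (1 + 1 / η) * EZ k θ δ T ≤ (1 + 1 / η) * (C1 * Real.exp C1 * (η * η) * L ^ (k ^ 2)) := by gcongr
      _ = ((1 + 1 / η) * η) * (C1 * Real.exp C1 * η * L ^ (k ^ 2)) := by ring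
      _ ≤ 2 * (C1 * Real.exp C1 * η * L ^ (k ^ 2)) := by gcongr
      _ = _ := by ring
  have hfin : |MZ k δ T - SS k (2 * δ)| ≤
      ((2 + C2) * D + 2 * (C1 * Real.exp C1) + (1 + C2) * D) * η * L ^ (k ^ 2) := by
    calc |MZ k δ T - SS k (2 * δ)| ≤ |MZ k δ T - BZ k θ δ T| + |BZ k θ δ T - SS k (2 * δ)| := abs_sub_le _ _ _
      _ ≤ (η * BZ k θ δ T + (1 + 1 / η) * EZ k θ δ T) + (η + C2 * η) * SS k (2 * δ) := add_le_add hM hB
      _ ≤ (η * ((2 + C2) * (D * L ^ (k ^ 2))) + 2 * (C1 * Real.exp C1) * η * L ^ (k ^ 2)) +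
          (η + C2 * η) * (D * L ^ (k ^ 2)) := by
            gcongr
            exact hB2.trans (by gcongr)
      _ = _ := by ring
  simp only [Function.comp]
  have e3 : Nk k (1 / 2 + δ) T / (T * L ^ (k ^ 2)) - (2 * δ) ^ (k ^ 2) * SS k (2 * δ) / (2 * x) ^ (k ^ 2) =
      (MZ k δ T - SS k (2 * δ)) / L ^ (k ^ 2) := by
    rw [Nk_MZ k _ hT, show 2 * δ = 2 * x / L by rw [hδ]; ring, div_pow]
    field_simp
  rw [e3, abs_div, abs_of_pos (show 0 < L ^ (k ^ 2) by positivity), div_le_iff₀ (by positivity)]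
  exact hfin

theorem F_conv (hk : 1 ≤ k) (hF : Differentiable ℂ F) (hl : TendstoLocallyUniformly (ft k) F atTop) :
    ConvexOn ℝ Set.univ (fun x : ℝ => Real.log (F x).re) := by
  have hpos := fun x : ℝ => F_pos hk hF hl x
  have key : ∀ x y : ℝ, x < y → ∀ a b : ℝ, 0 ≤ a → 0 ≤ b → a + b = 1 →
      Real.log (F ((a * x + b * y : ℝ) : ℂ)).re ≤ a * Real.log (F x).re + b * Real.log (F y).re := by
    intro x y hxy a b ha hb hab
    have hyx : 0 < y - x := by linarith
    obtain ⟨B, hB⟩ := (isCompact_Icc (a := x) (b := y)).exists_bound_of_continuousOn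
      (f := fun x : ℝ => (F x).re) (by
        have : Continuous fun x : ℝ => (F x).re := by
          exact Complex.continuous_re.comp (hF.continuous.comp Complex.continuous_ofReal)
        exact this.continuousOn)
    have hz : ((a * x + b * y : ℝ) : ℂ) ∈ Complex.HadamardThreeLines.verticalClosedStrip x y := by
      show ((a * x + b * y : ℝ) : ℂ).re ∈ Set.Icc x y
      rw [Complex.ofReal_re]
      constructor
      · have : a * x + b * y - x = b * (y - x) := by linear_combination x * hab
        nlinarith [mul_nonneg hb hyx.le]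
      · have : y - (a * x + b * y) = a * (y - x) := by linear_combination (-y) * hab
        nlinarith [mul_nonneg ha hyx.le]
    have h1 := Complex.HadamardThreeLines.norm_le_interp_of_mem_verticalClosedStrip' (f := F)
      (a := (F x).re) (b := (F y).re) hxy hz hF.diffContOnCl ?_ ?_ ?_
    · rw [Complex.ofReal_re] at h1
      have e1 : (a * x + b * y - x) / (y - x) = b := by
        rw [div_eq_iff hyx.ne']; linear_combination x * hab
      rw [e1, show 1 - b = a by linarith] at h1
      have h2 : (F ((a * x + b * y : ℝ) : ℂ)).re ≤ (F x).re ^ a * (F y).re ^ b :=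
        (Complex.re_le_norm _).trans h1
      have h3 := Real.log_le_log (hpos _) h2
      rwa [Real.log_mul (Real.rpow_pos_of_pos (hpos x) _).ne' (Real.rpow_pos_of_pos (hpos y) _).ne',
        Real.log_rpow (hpos x), Real.log_rpow (hpos y)] at h3
    · refine ⟨B, ?_⟩
      rintro _ ⟨z, hz, rfl⟩
      have h2 := vert_le hF.continuous hl z
      have h3 := hB z.re hz
      exact h2.trans ((le_abs_self _).trans h3)
    · intro z hz
      have h2 := vert_le hF.continuous hl z
      have h3 : z.re = x := hz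
      rwa [h3] at h2
    · intro z hz
      have h2 := vert_le hF.continuous hl z
      have h3 : z.re = y := hz
      rwa [h3] at h2
  refine ⟨convex_univ, fun x _ y _ a b ha hb hab => ?_⟩
  simp only [smul_eq_mul]
  rcases lt_trichotomy x y with h | h | h
  · exact key x y h a b ha hb hab
  · subst h
    have e1 : a * x + b * x = x := by linear_combination x * hab
    have e2 : a * Real.log (F x).re + b * Real.log (F x).re = Real.log (F x).re := by
      linear_combination (Real.log (F x).re) * hab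
    rw [e1, e2]
  · have := key y x h b a hb ha (by linarith)
    rw [add_comm (b * y), add_comm (b * _)] at this
    exact this

end Pool.Agent.J4H26.VP
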