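import Pool.Agent.MP27fa52.Param
import Pool.Agent.J4H26.EQ.Imp2

set_option autoImplicit false

/-! The correlation integral: analyticity and bounds. -/

namespace Pool.Agent.J4H26.VP

open MeasureTheory Filter Topology Complex Pool.Agent.H306R2 Pool.Agent.W184 Pool.Agent.J4H26.EQ

/-- `∫_0^T ζ(1/2+w+it)^k ζ(1/2+w-it)^k dt` -/
noncomputable def Jk (k : ℕ) (w : ℂ) (T : ℝ) : ℂ :=
  ∫ t in (0:ℝ)..T, riemannZeta (1 / 2 + w + t * I) ^ k * riemannZeta (1 / 2 + w - t * I) ^ k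

/-- `∫_0^T |ζ(σ+it)|^{2k} dt` -/
noncomputable def Nk (k : ℕ) (σ T : ℝ) : ℝ := ∫ t in (0:ℝ)..T, zn σ t ^ (2 * k)

lemma zp_cont {σ : ℝ} (k : ℕ) (h : σ < 1) : Continuous fun t => zn σ t ^ (2 * k) := (zn_cont h).pow _

lemma zp_nonneg (σ t : ℝ) (k : ℕ) : 0 ≤ zn σ t ^ (2 * k) := pow_nonneg (zn_nonneg _ _) _

lemma Nk_nonneg (k : ℕ) (σ : ℝ) {T : ℝ} (hT : 0 ≤ T) : 0 ≤ Nk k σ T :=
  intervalIntegral.integral_nonneg hT fun _ _ => zp_nonneg _ _ _

lemma Nk_mono (k : ℕ) {σ : ℝ} (h : σ < 1) {S T : ℝ} (hS : 0 ≤ S) (hST : S ≤ T) : Nk k σ S ≤ Nk k σ T :=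
  intervalIntegral.integral_mono_interval le_rfl hS hST (Eventually.of_forall fun _ => zp_nonneg _ _ _)
    ((zp_cont k h).intervalIntegrable _ _)

lemma zn_eq (z : ℂ) : ‖riemannZeta z‖ = zn z.re z.im := by
  unfold zn; rw [Complex.re_add_im]

lemma re_p (w : ℂ) (t : ℝ) : (1 / 2 + w + t * I).re = 1 / 2 + w.re := by simp
lemma im_p (w : ℂ) (t : ℝ) : (1 / 2 + w + t * I).im = t + w.im := by simp; ring
lemma re_m (w : ℂ) (t : ℝ) : (1 / 2 + w - t * I).re = 1 / 2 + w.re := by simp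
lemma im_m (w : ℂ) (t : ℝ) : (1 / 2 + w - t * I).im = -(t - w.im) := by simp

lemma int_norm (k : ℕ) (w : ℂ) (t : ℝ) :
    ‖riemannZeta (1 / 2 + w + t * I) ^ k * riemannZeta (1 / 2 + w - t * I) ^ k‖ =
      zn (1 / 2 + w.re) (t + w.im) ^ k * zn (1 / 2 + w.re) (t - w.im) ^ k := by
  rw [norm_mul, norm_pow, norm_pow, zn_eq, zn_eq, re_p, im_p, re_m, im_m, zn_neg]

lemma int_le (k : ℕ) (w : ℂ) (t : ℝ) :
    ‖riemannZeta (1 / 2 + w + t * I) ^ k * riemannZeta (1 / 2 + w - t * I) ^ k‖ ≤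
      (zn (1 / 2 + w.re) (t + w.im) ^ (2 * k) + zn (1 / 2 + w.re) (t - w.im) ^ (2 * k)) / 2 := by
  rw [int_norm, mul_comm 2 k, pow_mul, pow_mul]
  nlinarith [sq_nonneg (zn (1 / 2 + w.re) (t + w.im) ^ k - zn (1 / 2 + w.re) (t - w.im) ^ k)]

lemma int_cont (k : ℕ) {w : ℂ} (hw : w.re < 1 / 2) :
    Continuous fun t : ℝ => riemannZeta (1 / 2 + w + t * I) ^ k * riemannZeta (1 / 2 + w - t * I) ^ k := by
  refine Continuous.mul (Continuous.pow ?_ _) (Continuous.pow ?_ _)
  · rw [continuous_iff_continuousAt]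
    intro t
    have h1 : ContinuousAt riemannZeta (1 / 2 + w + t * I) := (zeta_diffAt (by rw [re_p]; linarith)).continuousAt
    exact ContinuousAt.comp (f := fun t : ℝ => (1 / 2 + w + t * I : ℂ)) h1 (by fun_prop)
  · rw [continuous_iff_continuousAt]
    intro t
    have h1 : ContinuousAt riemannZeta (1 / 2 + w - t * I) := (zeta_diffAt (by rw [re_m]; linarith)).continuousAt
    exact ContinuousAt.comp (f := fun t : ℝ => (1 / 2 + w - t * I : ℂ)) h1 (by fun_prop)

/-- on the real axis the correlation is the moment -/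
lemma Jk_real (k : ℕ) (x T : ℝ) : Jk k x T = (Nk k (1 / 2 + x) T : ℂ) := by
  unfold Jk Nk
  rw [← intervalIntegral.integral_ofReal]
  refine intervalIntegral.integral_congr fun t _ => ?_
  have e : (1 / 2 + (x : ℂ) - t * I) = (starRingEnd ℂ) (1 / 2 + (x : ℂ) + t * I) := by
    simp only [map_add, map_mul, Complex.conj_ofReal, Complex.conj_I, map_div₀, map_one, map_ofNat]
    ring
  have e2 : (1 / 2 + (x : ℂ) + t * I) = ((1 / 2 + x : ℝ) : ℂ) + t * I := by push_cast; ring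
  rw [e, riemannZeta_conj, ← map_pow, Complex.mul_conj, Complex.normSq_eq_norm_sq, norm_pow, e2]
  unfold zn
  push_cast
  ring

lemma Jk_le (k : ℕ) {w : ℂ} {T : ℝ} (hw : w.re < 1 / 2) (hT : 0 ≤ T) (hy : |w.im| ≤ 1) :
    ‖Jk k w T‖ ≤ Nk k (1 / 2 + w.re) (T + 1) + Nk k (1 / 2 + w.re) 1 := by
  have hσ : 1 / 2 + w.re < 1 := by linarith
  have hc := zp_cont k hσ
  set f : ℝ → ℝ := fun t => zn (1 / 2 + w.re) t ^ (2 * k) with hf
  have hyy := abs_le.mp hy
  have h1 : ‖Jk k w T‖ ≤ ∫ t in (0:ℝ)..T, (f (t + w.im) + f (t - w.im)) / 2 := by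
    unfold Jk
    refine (intervalIntegral.norm_integral_le_integral_norm hT).trans ?_
    refine intervalIntegral.integral_mono_on hT ((int_cont k hw).norm.intervalIntegrable _ _)
      (Continuous.intervalIntegrable (by fun_prop) _ _) fun t _ => int_le k w t
  refine h1.trans ?_
  have i1 : IntervalIntegrable (fun t => f (t + w.im)) volume 0 T := Continuous.intervalIntegrable (by fun_prop) _ _
  have i2 : IntervalIntegrable (fun t => f (t - w.im)) volume 0 T := Continuous.intervalIntegrable (by fun_prop) _ _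
  have h0 : ∀ t, 0 ≤ f t := fun t => zp_nonneg _ _ _
  have key : ∀ a : ℝ, |a| ≤ 1 → ∫ t in (0:ℝ)..T, f (t + a) ≤ Nk k (1 / 2 + w.re) (T + 1) + Nk k (1 / 2 + w.re) 1 := by
    intro a ha
    have haa := abs_le.mp ha
    rw [intervalIntegral.integral_comp_add_right]
    have h2 : ∫ t in (0 + a)..(T + a), f t ≤ ∫ t in (-1:ℝ)..(T + 1), f t :=
      intervalIntegral.integral_mono_interval (by linarith) (by linarith) (by linarith) (Eventually.of_forall h0)
        (hc.intervalIntegrable _ _)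
    have h3 : ∫ t in (-1:ℝ)..(0:ℝ), f t = ∫ t in (0:ℝ)..1, f t := by
      have := intervalIntegral.integral_comp_neg (a := 0) (b := 1) f
      rw [neg_zero] at this
      rw [← this]
      refine intervalIntegral.integral_congr fun x _ => ?_
      simp only [hf, zn_neg]
    have h4 := intervalIntegral.integral_add_adjacent_intervals (hc.intervalIntegrable (μ := volume) (-1) 0)
      (hc.intervalIntegrable 0 (T + 1))
    unfold Nk
    linarith
  have h5 := key w.im hy
  have h6 := key (-w.im) (by rwa [abs_neg])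
  simp only [← sub_eq_add_neg] at h6
  rw [intervalIntegral.integral_div, intervalIntegral.integral_add i1 i2]
  linarith

lemma Nk_crude (k : ℕ) {σ T : ℝ} (h1 : 3 / 8 ≤ σ) (h2 : σ ≤ 3 / 4) (hT : 0 ≤ T) :
    Nk k σ T ≤ T * (288 ^ k * (1 + T ^ 2) ^ k) := by
  have hc := zp_cont (σ := σ) k (by linarith)
  unfold Nk
  calc ∫ t in (0:ℝ)..T, zn σ t ^ (2 * k) ≤ ∫ t in (0:ℝ)..T, (288 ^ k * (1 + T ^ 2) ^ k : ℝ) := by
        refine intervalIntegral.integral_mono_on hT (hc.intervalIntegrable _ _) intervalIntegrable_const fun t ht => ?_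
        refine (zn_pow_le k h1 h2).trans ?_
        have : t ^ 2 ≤ T ^ 2 := pow_le_pow_left₀ ht.1 ht.2 2
        gcongr
    _ = _ := by rw [intervalIntegral.integral_const, smul_eq_mul, sub_zero]

lemma Jk_diff (k : ℕ) {T : ℝ} (hT : 0 ≤ T) : DifferentiableOn ℂ (fun w => Jk k w T) {w | |w.re| < 1 / 8} := by
  intro w0 hw0
  -- a bounded neighbourhood
  set U : Set ℂ := {w | |w.re| < 1 / 8} ∩ {w | |w.im| < |w0.im| + 1} with hU
  have hUo : IsOpen U := (isOpen_lt (by fun_prop) (by fun_prop)).inter (isOpen_lt (by fun_prop) (by fun_prop))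
  have hw0U : w0 ∈ U := ⟨hw0, by simp⟩
  set B : ℝ := (12 * (2 + |w0.im| + T)) ^ k * (12 * (2 + |w0.im| + T)) ^ k with hB
  have key : ∀ w ∈ U, ∀ t ∈ Set.Ioc 0 T,
      ‖riemannZeta (1 / 2 + w + t * I) ^ k * riemannZeta (1 / 2 + w - t * I) ^ k‖ ≤ B := by
    rintro w ⟨hw1, hw2⟩ t ⟨ht1, ht2⟩
    have hw1a : |w.re| < 1 / 8 := hw1
    have hw1' := abs_lt.mp hw1a
    have hw2' : |w.im| < |w0.im| + 1 := hw2
    rw [int_norm]
    have z1 := zn_le' (σ := 1 / 2 + w.re) (t := t + w.im) (by linarith) (by linarith)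
    have z2 := zn_le' (σ := 1 / 2 + w.re) (t := t - w.im) (by linarith) (by linarith)
    have a1 : |t + w.im| ≤ |t| + |w.im| := abs_add_le _ _
    have a2 : |t - w.im| ≤ |t| + |w.im| := abs_sub _ _
    rw [abs_of_pos ht1] at a1 a2
    have b1 : zn (1 / 2 + w.re) (t + w.im) ≤ 12 * (2 + |w0.im| + T) := by linarith
    have b2 : zn (1 / 2 + w.re) (t - w.im) ≤ 12 * (2 + |w0.im| + T) := by linarith
    rw [hB]
    gcongr
    · exact pow_nonneg (zn_nonneg _ _) _
    · exact zn_nonneg _ _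
    · exact zn_nonneg _ _
  have h1 := MP27fa52.diffOn_integral hUo (volume.restrict (Set.Ioc 0 T))
    (fun w t => riemannZeta (1 / 2 + w + t * I) ^ k * riemannZeta (1 / 2 + w - t * I) ^ k) (fun _ => B)
    (integrable_const B) (fun w hw => by
      have hw1a : |w.re| < 1 / 8 := hw.1
      have hw1' := abs_lt.mp hw1a
      exact (int_cont k (by linarith)).aestronglyMeasurable)
    (Eventually.of_forall fun t w hw => by
      have hw1a : |w.re| < 1 / 8 := hw.1
      have hw1' := abs_lt.mp hw1a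
      have d1 : DifferentiableAt ℂ riemannZeta (1 / 2 + w + t * I) := zeta_diffAt (by rw [re_p]; linarith)
      have d2 : DifferentiableAt ℂ riemannZeta (1 / 2 + w - t * I) := zeta_diffAt (by rw [re_m]; linarith)
      have e1 : DifferentiableAt ℂ (fun w : ℂ => riemannZeta (1 / 2 + w + t * I)) w :=
        DifferentiableAt.comp (f := fun w : ℂ => (1 / 2 + w + t * I : ℂ)) w d1 (by fun_prop)
      have e2 : DifferentiableAt ℂ (fun w : ℂ => riemannZeta (1 / 2 + w - t * I)) w :=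
        DifferentiableAt.comp (f := fun w : ℂ => (1 / 2 + w - t * I : ℂ)) w d2 (by fun_prop)
      exact ((e1.pow k).mul (e2.pow k)).differentiableWithinAt)
    ((ae_restrict_mem measurableSet_Ioc).mono fun t ht w hw => key w hw t ht)
  have h2 : DifferentiableOn ℂ (fun w => Jk k w T) U := by
    refine h1.congr fun w _ => ?_
    unfold Jk
    rw [intervalIntegral.integral_of_le hT]
  exact ((h2 w0 hw0U).differentiableAt (hUo.mem_nhds hw0U)).differentiableWithinAt

end Pool.Agent.J4H26.VP
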