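import Pool.Agent.H978R3.SL.Base

set_option autoImplicit false

/-! Vitali's theorem for a family indexed by the positive reals. -/

open Set Filter Topology Metric

namespace Pool.Agent.J4H26.VP

open Pool.Agent.H978R3.SL

theorem vitali {f : ℝ → ℂ → ℂ}
    (hb : ∀ R : ℝ, ∃ K : ℝ, ∀ᶠ T in atTop, DifferentiableOn ℂ (f T) (ball 0 R) ∧ ∀ z ∈ ball (0:ℂ) R, ‖f T z‖ ≤ K)
    {A : Set ℂ} (hA : A.Infinite) (hAb : Bornology.IsBounded A)
    (hc : ∀ z ∈ A, ∃ l : ℂ, Tendsto (fun T => f T z) atTop (𝓝 l)) :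
    ∃ F : ℂ → ℂ, Differentiable ℂ F ∧ TendstoLocallyUniformly f F atTop := by
  -- limits along ultrafilters
  have hu : ∀ 𝒰 : Ultrafilter ℝ, (𝒰 : Filter ℝ) ≤ atTop → ∃ Φ : ℂ → ℂ, Differentiable ℂ Φ ∧
      ∀ R : ℝ, TendstoLocallyUniformlyOn f Φ (𝒰 : Filter ℝ) (ball 0 R) := by
    intro 𝒰 h𝒰
    have h1 : ∀ R : ℝ, ∃ Φ : ℂ → ℂ, DifferentiableOn ℂ Φ (ball 0 R) ∧
        TendstoLocallyUniformlyOn f Φ (𝒰 : Filter ℝ) (ball 0 R) := by
      intro R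
      obtain ⟨K, hK⟩ := hb R
      exact montelU isOpen_ball f K 𝒰 (h𝒰 hK)
    choose Ψ hΨ1 hΨ2 using h1
    have key : ∀ z : ℂ, ∀ R : ℝ, z ∈ ball (0:ℂ) R → Tendsto (fun T => f T z) 𝒰 (𝓝 (Ψ R z)) :=
      fun z R hz => (hΨ2 R).tendsto_at hz
    have hmem : ∀ z : ℂ, z ∈ ball (0:ℂ) (‖z‖ + 1) := fun z => by
      rw [mem_ball_zero_iff]; linarith
    have heq : ∀ R : ℝ, ∀ z ∈ ball (0:ℂ) R, Ψ (‖z‖ + 1) z = Ψ R z := fun R z hz =>
      tendsto_nhds_unique (key z _ (hmem z)) (key z R hz)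
    refine ⟨fun z => Ψ (‖z‖ + 1) z, ?_, ?_⟩
    · intro z
      have h3 : (fun z => Ψ (‖z‖ + 1) z) =ᶠ[𝓝 z] Ψ (‖z‖ + 1) := by
        filter_upwards [isOpen_ball.mem_nhds (hmem z)] with w hw using heq _ w hw
      exact h3.differentiableAt_iff.2 ((hΨ1 _ z (hmem z)).differentiableAt (isOpen_ball.mem_nhds (hmem z)))
    · intro R
      exact (hΨ2 R).congr_right fun z hz => (heq R z hz).symm
  have hne : (atTop : Filter ℝ).NeBot := inferInstance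
  obtain ⟨F, hF, hFl⟩ := hu (Ultrafilter.of atTop) (Ultrafilter.of_le _)
  refine ⟨F, hF, ?_⟩
  -- accumulation point
  obtain ⟨R0, hR0⟩ := hAb.subset_closedBall 0
  obtain ⟨x, -, hx⟩ := hA.exists_accPt_of_subset_isCompact (isCompact_closedBall (0:ℂ) R0) hR0
  have hall : ∀ 𝒰 : Ultrafilter ℝ, (𝒰 : Filter ℝ) ≤ atTop → ∀ R : ℝ,
      TendstoLocallyUniformlyOn f F (𝒰 : Filter ℝ) (ball 0 R) := by
    intro 𝒰 h𝒰 R
    obtain ⟨Φ, hΦ, hΦl⟩ := hu 𝒰 h𝒰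
    have hA2 : ∀ z ∈ A, Φ z = F z := by
      intro z hz
      obtain ⟨l, hl⟩ := hc z hz
      have hm : z ∈ ball (0:ℂ) (‖z‖ + 1) := by rw [mem_ball_zero_iff]; linarith
      have e1 := tendsto_nhds_unique ((hΦl (‖z‖ + 1)).tendsto_at hm) (hl.mono_left h𝒰)
      have e2 := tendsto_nhds_unique ((hFl (‖z‖ + 1)).tendsto_at hm) (hl.mono_left (Ultrafilter.of_le _))
      rw [e1, e2]
    have hEq : Φ = F := by
      have h1 : AnalyticOnNhd ℂ Φ univ := hΦ.differentiableOn.analyticOnNhd isOpen_univ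
      have h2 : AnalyticOnNhd ℂ F univ := hF.differentiableOn.analyticOnNhd isOpen_univ
      have h3 : ∃ᶠ z in 𝓝[≠] x, Φ z = F z := by
        rw [accPt_iff_frequently_nhdsNE] at hx
        exact hx.mono fun z hz => hA2 z hz
      exact h1.eq_of_frequently_eq h2 h3
    rw [← hEq]
    exact hΦl R
  rw [Metric.tendstoLocallyUniformly_iff]
  intro ε hε x
  refine ⟨closedBall x 1, closedBall_mem_nhds x one_pos, ?_⟩
  show {T | ∀ y ∈ closedBall x 1, dist (F y) (f T y) < ε} ∈ (atTop : Filter ℝ)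
  rw [mem_iff_ultrafilter]
  intro 𝒰 h𝒰
  have h1 := hall 𝒰 h𝒰 (‖x‖ + 2)
  rw [tendstoLocallyUniformlyOn_iff_forall_isCompact isOpen_ball] at h1
  have hsub : closedBall x 1 ⊆ ball (0:ℂ) (‖x‖ + 2) := by
    intro y hy
    rw [mem_closedBall, dist_eq_norm] at hy
    rw [mem_ball_zero_iff]
    have := norm_le_norm_add_norm_sub' y x
    linarith
  have h2 := h1 _ hsub (isCompact_closedBall x 1)
  rw [Metric.tendstoUniformlyOn_iff] at h2
  exact h2 ε hε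

end Pool.Agent.J4H26.VP
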