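import Pool.Agent.J4H26.VP.Bd
import Pool.Agent.J4H26.VP.Vit

set_option autoImplicit false

/-! Local boundedness of the rescaled correlation. -/

namespace Pool.Agent.J4H26.VP

open MeasureTheory Filter Topology Complex Pool.Agent.H306R2 Pool.Agent.W184 Pool.Agent.J4H26.EQ

/-- the rescaled correlation -/
noncomputable def ft (k : ℕ) (T : ℝ) (z : ℂ) : ℂ :=
  Jk k (z / (Real.log T : ℂ)) T / ((T * Real.log T ^ (k ^ 2) : ℝ) : ℂ)

lemma div_re' (z : ℂ) (L : ℝ) : (z / (L : ℂ)).re = z.re / L := by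
  rw [Complex.div_ofReal_re]

lemma div_im' (z : ℂ) (L : ℝ) : (z / (L : ℂ)).im = z.im / L := by
  rw [Complex.div_ofReal_im]

lemma ft_diff (k : ℕ) (R : ℝ) : ∀ᶠ T in atTop, DifferentiableOn ℂ (ft k T) (Metric.ball 0 R) := by
  filter_upwards [small R (show (0:ℝ) < 1 / 8 by norm_num), eventually_gt_atTop (0:ℝ),
    Real.tendsto_log_atTop.eventually_ge_atTop 1] with T h1 hT hL
  have hL0 : 0 < Real.log T := by linarith
  intro z hz
  rw [mem_ball_zero_iff] at hz
  have hz1 : |z.re| < R := lt_of_le_of_lt (Complex.abs_re_le_norm z) hz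
  have hR0 : 0 < R := lt_of_le_of_lt (abs_nonneg _) hz1
  have hm : z / (Real.log T : ℂ) ∈ {w : ℂ | |w.re| < 1 / 8} := by
    show |(z / (Real.log T : ℂ)).re| < 1 / 8
    rw [div_re', abs_div, abs_of_pos hL0]
    rw [abs_div, abs_of_pos hL0, abs_of_pos hR0] at h1
    refine lt_trans ?_ h1
    gcongr
  have hopen : IsOpen {w : ℂ | |w.re| < 1 / 8} := isOpen_lt (by fun_prop) (by fun_prop)
  have h2 : DifferentiableAt ℂ (fun w => Jk k w T) (z / (Real.log T : ℂ)) :=
    ((Jk_diff k hT.le) _ hm).differentiableAt (hopen.mem_nhds hm)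
  have h3 : DifferentiableAt ℂ (fun z : ℂ => Jk k (z / (Real.log T : ℂ)) T) z :=
    DifferentiableAt.comp (f := fun z : ℂ => z / (Real.log T : ℂ)) z h2 (by fun_prop)
  exact (h3.div_const _).differentiableWithinAt

theorem ft_bd {k : ℕ} (hk : 1 ≤ k) (H : ∃ K : ℝ, ∀ᶠ T in atTop, MZ k 0 T ≤ K * Real.log T ^ (k ^ 2)) (R : ℝ) :
    ∃ K : ℝ, ∀ᶠ T in atTop, ∀ z ∈ Metric.ball (0:ℂ) R, ‖ft k T z‖ ≤ K := by
  obtain ⟨C, hC, hv⟩ := vert hk H
  set R1 : ℝ := max C (|R| + 1) with hR1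
  have hR1C : C ≤ R1 := le_max_left _ _
  have hR1R : |R| + 1 ≤ R1 := le_max_right _ _
  have hR10 : 0 < R1 := lt_of_lt_of_le hC hR1C
  obtain ⟨K, hK, hev⟩ := hv R1 hR1C
  set K1 : ℝ := Real.exp (4 * R1 ^ 2) * (2 * K) with hK1
  set K2 : ℝ := Real.exp (4 * R1 ^ 2) * (4 * (288 ^ k * 5 ^ k)) with hK2
  refine ⟨K1 + K2, ?_⟩
  filter_upwards [hev, small R1 (show (0:ℝ) < 1 / 16 by norm_num), eventually_ge_atTop (2:ℝ),
    Real.tendsto_log_atTop.eventually_ge_atTop (2 * R1 + 2 * k + 1), ft_diff k (R1 + 1)] with T h1 h2 hT hLbig hdiff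
  have hT0 : 0 < T := by linarith
  set L := Real.log T with hLdef
  have hk0 : (0:ℝ) ≤ k := Nat.cast_nonneg k
  have hL1 : 1 ≤ L := by linarith
  have hL0 : 0 < L := by linarith
  have hLk : 1 ≤ L ^ (k ^ 2) := one_le_pow₀ hL1
  have hR1L : 0 < R1 / L := by positivity
  rw [abs_of_pos hR1L] at h2
  intro z0 hz0
  rw [mem_ball_zero_iff] at hz0
  have hz0R : ‖z0‖ < R1 := by
    have := le_abs_self R
    linarith
  have hz0re := abs_lt.mp (lt_of_le_of_lt (Complex.abs_re_le_norm z0) hz0R)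
  have hz0im := abs_lt.mp (lt_of_le_of_lt (Complex.abs_im_le_norm z0) hz0R)
  set U : Set ℂ := Set.Ioo (-R1) R1 ×ℂ Set.Ioo (-L) L with hU
  have hUb : Bornology.IsBounded U := (Metric.isBounded_Ioo _ _).reProdIm (Metric.isBounded_Ioo _ _)
  have hclU : closure U = Set.Icc (-R1) R1 ×ℂ Set.Icc (-L) L := by
    rw [hU, Complex.closure_reProdIm, closure_Ioo (by linarith), closure_Ioo (by linarith)]
  set h : ℂ → ℂ := fun z => Jk k (z / (L : ℂ)) T * Complex.exp ((z - z0) ^ 2) with hh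
  -- differentiability
  have hopen : IsOpen {w : ℂ | |w.re| < 1 / 8} := isOpen_lt (by fun_prop) (by fun_prop)
  have hd : DifferentiableOn ℂ h (closure U) := by
    intro z hz
    rw [hclU, Complex.mem_reProdIm] at hz
    have hz1 : |z.re| ≤ R1 := abs_le.mpr ⟨hz.1.1, hz.1.2⟩
    have hm : z / (L : ℂ) ∈ {w : ℂ | |w.re| < 1 / 8} := by
      show |(z / (L : ℂ)).re| < 1 / 8
      rw [div_re', abs_div, abs_of_pos hL0]
      have : |z.re| / L ≤ R1 / L := by gcongr
      linarith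
    have h2 : DifferentiableAt ℂ (fun w => Jk k w T) (z / (L : ℂ)) :=
      ((Jk_diff k hT0.le) _ hm).differentiableAt (hopen.mem_nhds hm)
    have h3 : DifferentiableAt ℂ (fun z : ℂ => Jk k (z / (L : ℂ)) T) z :=
      DifferentiableAt.comp (f := fun z : ℂ => z / (L : ℂ)) z h2 (by fun_prop)
    exact (h3.mul (by fun_prop)).differentiableWithinAt
  have hdc : DiffContOnCl ℂ h U := hd.diffContOnCl
  have hexp : ∀ z : ℂ, ‖Complex.exp ((z - z0) ^ 2)‖ = Real.exp ((z.re - z0.re) ^ 2 - (z.im - z0.im) ^ 2) := by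
    intro z
    rw [Complex.norm_exp]
    congr 1
    rw [pow_two, Complex.mul_re, Complex.sub_re, Complex.sub_im]
    ring
  -- general bound for Jk on the closed rectangle
  have hJ : ∀ z : ℂ, |z.re| ≤ R1 → |z.im| ≤ L →
      ‖Jk k (z / (L : ℂ)) T‖ ≤ 2 * Nk k (1 / 2 + z.re / L) (2 * T) := by
    intro z hz1 hz2
    have hσ : |z.re / L| ≤ R1 / L := by rw [abs_div, abs_of_pos hL0]; gcongr
    have hσ2 := abs_le.mp hσ
    have h3 := Jk_le k (w := z / (L : ℂ)) (T := T) (by rw [div_re']; linarith) hT0.le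
      (by rw [div_im', abs_div, abs_of_pos hL0, div_le_one hL0]; exact hz2)
    rw [div_re'] at h3
    have h4 := Nk_mono k (σ := 1 / 2 + z.re / L) (by linarith) (S := T + 1) (T := 2 * T) (by linarith) (by linarith)
    have h5 := Nk_mono k (σ := 1 / 2 + z.re / L) (by linarith) (S := 1) (T := 2 * T) (by linarith) (by linarith)
    linarith
  have hre2 : ∀ z : ℂ, |z.re| ≤ R1 → (z.re - z0.re) ^ 2 ≤ 4 * R1 ^ 2 := by
    intro z hz
    have := abs_le.mp hz
    nlinarith
  have hfr : ∀ z ∈ frontier U, ‖h z‖ ≤ (K1 + K2) * (T * L ^ (k ^ 2)) := by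
    intro z hz
    have hzc : z ∈ closure U := frontier_subset_closure hz
    rw [hclU, Complex.mem_reProdIm] at hzc
    have hz1 : |z.re| ≤ R1 := abs_le.mpr ⟨hzc.1.1, hzc.1.2⟩
    have hz2 : |z.im| ≤ L := abs_le.mpr ⟨hzc.2.1, hzc.2.2⟩
    have hJz := hJ z hz1 hz2
    have hhz : ‖h z‖ = ‖Jk k (z / (L : ℂ)) T‖ * Real.exp ((z.re - z0.re) ^ 2 - (z.im - z0.im) ^ 2) := by
      rw [hh]; simp only; rw [norm_mul, hexp]
    have hTL : 0 ≤ T * L ^ (k ^ 2) := by positivity
    have hTT : T ≤ T * L ^ (k ^ 2) := le_mul_of_one_le_right hT0.le hLk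
    have hK10 : 0 < K1 := by positivity
    have hK20 : 0 < K2 := by positivity
    by_cases hside : |z.re| = R1
    · -- vertical sides
      have hN : Nk k (1 / 2 + z.re / L) (2 * T) ≤ K * (T * L ^ (k ^ 2)) := by
        rcases abs_eq hR10.le |>.mp hside with h3 | h3
        · rw [h3]; exact h1.1
        · rw [h3, neg_div, ← sub_eq_add_neg]; exact h1.2
      have hE : Real.exp ((z.re - z0.re) ^ 2 - (z.im - z0.im) ^ 2) ≤ Real.exp (4 * R1 ^ 2) := by
        refine Real.exp_le_exp.mpr ?_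
        nlinarith [hre2 z hz1, sq_nonneg (z.im - z0.im)]
      calc ‖h z‖ ≤ (2 * (K * (T * L ^ (k ^ 2)))) * Real.exp (4 * R1 ^ 2) := by
            rw [hhz]; gcongr; exact hJz.trans (by linarith)
        _ = K1 * (T * L ^ (k ^ 2)) := by rw [hK1]; ring
        _ ≤ (K1 + K2) * (T * L ^ (k ^ 2)) := mul_le_mul_of_nonneg_right (by linarith) hTL
    · -- horizontal sides
      have him : |z.im| = L := by
        have hzn : z ∉ U := by
          have : IsOpen U := isOpen_Ioo.reProdIm isOpen_Ioo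
          rw [this.frontier_eq] at hz
          exact hz.2
        by_contra hne
        apply hzn
        rw [hU, Complex.mem_reProdIm]
        have h3 := abs_lt.mp (lt_of_le_of_ne hz1 hside)
        have h4 := abs_lt.mp (lt_of_le_of_ne hz2 hne)
        exact ⟨⟨h3.1, h3.2⟩, ⟨h4.1, h4.2⟩⟩
      have hσ : |z.re / L| ≤ R1 / L := by rw [abs_div, abs_of_pos hL0]; gcongr
      have hσ2 := abs_le.mp hσ
      have hN := Nk_crude k (σ := 1 / 2 + z.re / L) (T := 2 * T) (by linarith) (by linarith) (by linarith)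
      have hN2 : Nk k (1 / 2 + z.re / L) (2 * T) ≤ 2 * T * (288 ^ k * (5 ^ k * Real.exp (2 * k * L))) := by
        refine hN.trans ?_
        have e1 : Real.exp (2 * k * L) = (T ^ 2) ^ k := by
          rw [← Real.exp_log (show 0 < (T ^ 2) ^ k by positivity), Real.log_pow, Real.log_pow]
          congr 1; push_cast; ring
        have e2 : (1 + (2 * T) ^ 2) ^ k ≤ (5 * T ^ 2) ^ k := by
          refine pow_le_pow_left₀ (by positivity) ?_ k
          nlinarith
        rw [e1, ← mul_pow 5]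
        gcongr
      have hdist : L - R1 ≤ |z.im - z0.im| := by
        have h3 : |z0.im| ≤ R1 := abs_le.mpr ⟨hz0im.1.le, hz0im.2.le⟩
        have h4 := abs_sub_abs_le_abs_sub z.im z0.im
        rw [him] at h4
        linarith
      have hsq : 2 * k * L ≤ (z.im - z0.im) ^ 2 := by
        have h3 : 0 ≤ L - R1 := by linarith
        have h4 := pow_le_pow_left₀ h3 hdist 2
        rw [sq_abs] at h4
        nlinarith
      have hE : Real.exp ((z.re - z0.re) ^ 2 - (z.im - z0.im) ^ 2) ≤ Real.exp (4 * R1 ^ 2) * Real.exp (-(2 * k * L)) := by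
        rw [← Real.exp_add]
        refine Real.exp_le_exp.mpr ?_
        linarith [hre2 z hz1]
      calc ‖h z‖ ≤ (2 * (2 * T * (288 ^ k * (5 ^ k * Real.exp (2 * k * L))))) *
            (Real.exp (4 * R1 ^ 2) * Real.exp (-(2 * k * L))) := by
            rw [hhz]; gcongr; exact hJz.trans (by linarith)
        _ = K2 * T * (Real.exp (2 * k * L) * Real.exp (-(2 * k * L))) := by rw [hK2]; ring
        _ = K2 * T := by rw [← Real.exp_add]; simp
        _ ≤ K2 * (T * L ^ (k ^ 2)) := by gcongr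
        _ ≤ (K1 + K2) * (T * L ^ (k ^ 2)) := mul_le_mul_of_nonneg_right (by linarith) hTL
  have hz0c : z0 ∈ closure U := by
    rw [hclU, Complex.mem_reProdIm]
    refine ⟨⟨hz0re.1.le, hz0re.2.le⟩, ⟨by linarith, by linarith⟩⟩
  have hmax := Complex.norm_le_of_forall_mem_frontier_norm_le hUb hdc hfr hz0c
  have hz0h : h z0 = Jk k (z0 / (L : ℂ)) T := by
    rw [hh]; simp
  rw [hz0h] at hmax
  unfold ft
  rw [norm_div, Complex.norm_real, Real.norm_of_nonneg (by positivity), div_le_iff₀ (by positivity)]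
  exact hmax

theorem lim {k : ℕ} (hk : 1 ≤ k) (H : ∃ K : ℝ, ∀ᶠ T in atTop, MZ k 0 T ≤ K * Real.log T ^ (k ^ 2))
    {A : Set ℂ} (hA : A.Infinite) (hAb : Bornology.IsBounded A)
    (hc : ∀ z ∈ A, ∃ l : ℂ, Tendsto (fun T => ft k T z) atTop (𝓝 l)) :
    ∃ F : ℂ → ℂ, Differentiable ℂ F ∧ TendstoLocallyUniformly (ft k) F atTop := by
  refine vitali (fun R => ?_) hA hAb hc
  obtain ⟨K, hK⟩ := ft_bd hk H R
  exact ⟨K, (ft_diff k R).and hK⟩

end Pool.Agent.J4H26.VP
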